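import Pool.Agent.AD.BD.Defs
import Pool.Agent.H5.BD.CAff

/-!
# AD BD Aff: the change of the variable is affine
-/

set_option autoImplicit false

open Topology Filter Metric

namespace Pool.Agent.AD.BD

open Pool.Agent.H36.BP (EN fs wd)
open Pool.Agent.H14.PP (IsCone CurveAt Tan)
open Pool.Agent.H62.EF (MN pr)
open Pool.Agent.H5.BD (BC evp Rel affine_of_lip)

variable {N d : ℕ} {X : Set (EN N)} {A : Atlas d X} {c L r₀ c₁ K₀ r₂ r₃ ε₃ K : ℝ}

theorem MC.rel_affine (h : MC A c L r₀ c₁ K₀ r₂ r₃ ε₃ K) {r : ℝ} (hr : 0 < r) {F G : ℂ → EN N} (hF : F ∈ BC X c L) (hG : G ∈ BC X c L)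
    (hrel : Rel evp r₂ r F G) : ∃ a b : ℂ, a ≠ 0 ∧ ‖b‖ ≤ r₂ ∧ ∀ z, evp G z = evp F (a * z + b) := by
  obtain ⟨ψ, hψ, hψr, hψ0⟩ := hrel
  have hK : 0 < K := lt_of_lt_of_le one_pos (h.lc.one_le.trans h.le_K)
  have hL := h.lc.L_pos
  have hr₂ := h.r₂_pos
  have hr₃ := h.r₃_pos
  have hlip : ∀ z z', ‖z - z'‖ ≤ r → ‖ψ z - ψ z'‖ ≤ (2 * L * K) * ‖z - z'‖ := by
    intro z z' hz
    have h1 := h.emb F hF (ψ z) (ψ z') ((hψr z z' hz).trans (by linarith))
    have h2 := h.lc.lip G hG z z'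
    have h3 : dist (pr (F (ψ z))) (pr (F (ψ z'))) = dist (pr (G z)) (pr (G z')) := by
      have e1 : pr (G z) = pr (F (ψ z)) := hψ z
      have e2 : pr (G z') = pr (F (ψ z')) := hψ z'
      rw [e1, e2]
    rw [h3] at h1
    have h4 := h1.trans h2
    rw [inv_mul_le_iff₀ hK] at h4
    linarith
  have hdiff : Differentiable ℂ ψ := by
    intro z₀
    have e0 : pr (G z₀) = pr (F (ψ z₀)) := hψ z₀
    obtain ⟨e, ψ', hm⟩ := h.matching F hF G hG (ψ z₀) z₀ (by rw [e0, dist_self]; exact h.ε₃_pos.le)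
    have heq : ψ =ᶠ[𝓝 z₀] ψ' := by
      filter_upwards [ball_mem_nhds z₀ hr, ball_mem_nhds z₀ (by positivity : (0 : ℝ) < 2 * r₃)] with z hz hz'
      rw [mem_ball, dist_eq_norm] at hz
      have hw : ψ z ∈ closedBall (ψ z₀) (2 * r₂) := by
        rw [mem_closedBall, dist_eq_norm]
        exact (hψr z z₀ hz.le).trans (by linarith)
      have h1 := hm.near z hz' (ψ z) hw
      have h2 := A.le_dist _ _ _ (hm.goodF _ hw) (hm.goodG z hz')
      have e1 : pr (G z) = pr (F (ψ z)) := hψ z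
      rw [e1, dist_self, mul_zero] at h2
      have h3 : ‖qc A (A.idx (pr (F (ψ z₀)))) F (ψ z) - qc A (A.idx (pr (F (ψ z₀)))) G z‖ ≤ 0 := h2
      have h4 : ‖ψ z - ψ' z‖ ≤ 0 := h1.trans (by nlinarith [norm_nonneg (qc A (A.idx (pr (F (ψ z₀)))) F (ψ z) - qc A (A.idx (pr (F (ψ z₀)))) G z)])
      exact sub_eq_zero.1 (norm_le_zero_iff.1 h4)
    exact ((hm.hol z₀ (mem_ball_self (by positivity))).differentiableAt (ball_mem_nhds z₀ (by positivity))).congr_of_eventuallyEq heq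
  obtain ⟨a, ha⟩ := affine_of_lip hr (by positivity) hdiff hlip
  refine ⟨a, ψ 0, ?_, hψ0, fun z => ?_⟩
  · rintro rfl
    have h1 := h.emb G hG r₂ 0 (by
      rw [sub_zero, Complex.norm_real, Real.norm_eq_abs, abs_of_pos hr₂]
      linarith)
    have e1 : pr (G r₂) = pr (F (ψ r₂)) := hψ r₂
    have e2 : pr (G 0) = pr (F (ψ 0)) := hψ 0
    rw [e1, e2, ha r₂, zero_mul, zero_add, dist_self, sub_zero, Complex.norm_real, Real.norm_eq_abs, abs_of_pos hr₂] at h1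
    have h2 : 0 < K⁻¹ * r₂ := by positivity
    linarith
  · rw [hψ z, ha z]

end Pool.Agent.AD.BD
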