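import Pool.Agent.AD.BD.Defs
import Pool.Agent.AD.ChartClosed


/-!
# BD CAtlB: changes of charts

Let `τ p = χ'.q (χ.σ p)` and `P = {p | ‖p‖ ≤ 1 / 2 ∧ χ.σ p ∈ χ'.U ∧ ‖χ'.q (χ.σ p)‖ ≤ 1 / 2}`.  If `Good χ x` and `Good χ' x` then `χ.q x ∈ P` and `τ (χ.q x) = χ'.q x` (`x = a • χ.σ (χ.q x)`,
`q_smul`).  `τ` is analytic at the points of `P` (`σ_an`, `q_an`), `jac τ p ≠ 0` for `p ∈ P` (`jac_ne_zero` in `H14/PP/NodeGerm.lean`), and `P` is compact: it is closed because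
`{x ∈ X | x ∈ χ'.U, ‖χ'.q x‖ ≤ 1 / 2}` is closed in `X` (see `H14/PP/ChartClosed.lean`; or: if `x n ∈ X ∩ χ'.U`, `‖χ'.q (x n)‖ ≤ 1 / 2`, `x n → x ∈ X` then `x n = a n • χ'.σ (χ'.q (x n))`,
`χ'.q (x n) → p'`, `‖p'‖ ≤ 1 / 2` along an ultrafilter, `a n` converges because `χ'.σ p' ≠ 0` and `‖x‖ ≠ 0`, so `x = a • χ'.σ p'`, `a ≠ 0`, is in `χ'.U`).
`‖fderiv τ p‖` and `‖jac τ p‖⁻¹` are continuous on `P`, hence bounded.
Second order: otherwise there are `p n, p' n ∈ P` with `‖τ (p' n) - τ (p n) - Dτ_{p n} (p' n - p n)‖ > n ‖p' n - p n‖²`; along an ultrafilter `p n → p`, `p' n → p'` in `P`.  The left hand side is bounded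
(`fderiv` is bounded on `P`, `τ` too), so `p = p'`.  `τ` is analytic near `p`; on a small ball around `p` `fderiv τ` is Lipschitz with a constant `M`, so
`‖τ y - τ x - Dτ_x (y - x)‖ ≤ M ‖y - x‖²` there (mean value inequality for `y ↦ τ y - Dτ_x y` on the segment).  Contradiction for `n > M`.
-/

set_option autoImplicit false

open Topology Filter Metric

namespace Pool.Agent.AD.BD

open Pool.Agent.H36.BP (EN fs wd)
open Pool.Agent.H14.PP (IsCone CurveAt Tan)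
open Pool.Agent.H62.EF (MN pr)
open Pool.Agent.H5.BD (BC evp)

variable {N d : ℕ} {X : Set (EN N)}

/-- the common domain of two charts -/
private def CAtlB_P {X : Set (EN N)} (χ χ' : Chart d X) : Set (Vd d) :=
  {p | ‖p‖ ≤ 1 / 2 ∧ χ.σ p ∈ χ'.U ∧ ‖χ'.q (χ.σ p)‖ ≤ 1 / 2}

private theorem CAtlB_ball {χ χ' : Chart d X} {p : Vd d} (hp : p ∈ CAtlB_P χ χ') : p ∈ ball (0 : Vd d) 2 := by
  rw [mem_ball, dist_zero_right]
  linarith [hp.1]

private theorem CAtlB_compact (hX : IsCone X) (χ χ' : Chart d X) : IsCompact (CAtlB_P χ χ') := by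
  have hcomp : IsCompact (closedBall (0 : Vd d) (1 / 2)) := isCompact_closedBall _ _
  have hcont : ContinuousOn χ.σ (closedBall (0 : Vd d) (1 / 2)) := fun p hp =>
    (χ.σ_an p (closedBall_subset_ball (by norm_num) hp)).continuousAt.continuousWithinAt
  have hcl := Pool.Agent.AD.Chart.isClosed hX χ' (r := 1 / 2) (by norm_num) (by norm_num)
  have h1 : IsClosed (closedBall (0 : Vd d) (1 / 2) ∩ χ.σ ⁻¹' (insert (0 : EN N) {x | x ∈ X ∧ x ∈ χ'.U ∧ ‖χ'.q x‖ ≤ 1 / 2})) :=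
    hcont.preimage_isClosed_of_isClosed isClosed_closedBall hcl
  have h2 : CAtlB_P χ χ' = closedBall (0 : Vd d) (1 / 2) ∩
      χ.σ ⁻¹' (insert (0 : EN N) {x | x ∈ X ∧ x ∈ χ'.U ∧ ‖χ'.q x‖ ≤ 1 / 2}) := by
    ext p
    constructor
    · rintro ⟨h3, h4, h5⟩
      refine ⟨mem_closedBall_zero_iff.2 h3, Or.inr ⟨(χ.σ_mem p ?_).1, h4, h5⟩⟩
      rw [mem_ball, dist_zero_right]
      linarith
    · rintro ⟨h3, h4⟩
      have h5 : p ∈ ball (0 : Vd d) 2 := closedBall_subset_ball (by norm_num) h3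
      rcases h4 with h4 | h4
      · exact absurd h4 (χ.sigma_ne_zero hX h5)
      · exact ⟨mem_closedBall_zero_iff.1 h3, h4.2.1, h4.2.2⟩
  rw [h2]
  exact hcomp.of_isClosed_subset h1 Set.inter_subset_left

private theorem CAtlB_an {χ χ' : Chart d X} {p : Vd d} (hp : p ∈ CAtlB_P χ χ') : AnalyticAt ℂ (fun y => χ'.q (χ.σ y)) p :=
  AnalyticAt.comp (g := χ'.q) (f := χ.σ) (χ'.q_an _ hp.2.1) (χ.σ_an p (CAtlB_ball hp))

private theorem CAtlB_mem (χ χ' : Chart d X) {x : EN N} (h : Good χ x) (h' : Good χ' x) :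
    χ.q x ∈ CAtlB_P χ χ' ∧ χ'.q (χ.σ (χ.q x)) = χ'.q x := by
  obtain ⟨h1, c, hc, h2⟩ := χ.surj x h.1 h.2.1
  have h3 : χ.σ (χ.q x) = c⁻¹ • x := by
    conv_rhs => rw [h2]
    rw [smul_smul, inv_mul_cancel₀ hc, one_smul]
  have hc' : c⁻¹ ≠ 0 := inv_ne_zero hc
  have h4 : χ'.q (χ.σ (χ.q x)) = χ'.q x := by rw [h3, χ'.q_smul x h'.2.1 _ hc']
  refine ⟨⟨h.2.2, ?_, ?_⟩, h4⟩
  · rw [h3]; exact χ'.smul_U x h'.2.1 _ hc'
  · rw [h4]; exact h'.2.2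

/-- the second order estimate near a point -/
private theorem CAtlB_taylor {τ : Vd d → Vd d} {p : Vd d} (h : AnalyticAt ℂ τ p) :
    ∃ (r M : ℝ), 0 < r ∧ 0 ≤ M ∧ ∀ x ∈ ball p r, ∀ y ∈ ball p r, ‖τ y - τ x - fderiv ℂ τ x (y - x)‖ ≤ M * ‖y - x‖ ^ 2 := by
  have h1 : ContDiffAt ℂ 1 (fderiv ℂ τ) p := h.fderiv.contDiffAt
  obtain ⟨K, t, ht, hK⟩ := h1.exists_lipschitzOnWith
  obtain ⟨r, hr, hrt⟩ := Metric.mem_nhds_iff.1 (Filter.inter_mem ht h.eventually_analyticAt)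
  refine ⟨r, K, hr, K.2, fun x hx y hy => ?_⟩
  have hseg : segment ℝ x y ⊆ ball p r := (convex_ball p r).segment_subset hx hy
  have h2 : ∀ z ∈ segment ℝ x y, HasFDerivWithinAt τ (fderiv ℂ τ z) (segment ℝ x y) z := fun z hz =>
    (hrt (hseg hz)).2.differentiableAt.hasFDerivAt.hasFDerivWithinAt
  have h3 : ∀ z ∈ segment ℝ x y, ‖fderiv ℂ τ z - fderiv ℂ τ x‖ ≤ K * ‖y - x‖ := by
    intro z hz
    refine (hK.norm_sub_le (hrt (hseg hz)).1 (hrt hx).1).trans ?_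
    exact mul_le_mul_of_nonneg_left (norm_sub_le_of_mem_segment hz) K.2
  have h4 := Convex.norm_image_sub_le_of_norm_hasFDerivWithin_le' h2 h3 (convex_segment x y) (left_mem_segment ℝ x y)
    (right_mem_segment ℝ x y)
  calc ‖τ y - τ x - fderiv ℂ τ x (y - x)‖ ≤ K * ‖y - x‖ * ‖y - x‖ := h4
    _ = K * ‖y - x‖ ^ 2 := by ring

/-- the second order estimate on a compact set -/
private theorem CAtlB_second {τ : Vd d → Vd d} {P : Set (Vd d)} (hP : IsCompact P) (h : ∀ p ∈ P, AnalyticAt ℂ τ p) :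
    ∃ C : ℝ, 0 ≤ C ∧ ∀ x ∈ P, ∀ y ∈ P, ‖τ y - τ x - fderiv ℂ τ x (y - x)‖ ≤ C * ‖y - x‖ ^ 2 := by
  have hcont : ContinuousOn (fun z : Vd d × Vd d => ‖τ z.2 - τ z.1 - fderiv ℂ τ z.1 (z.2 - z.1)‖) (P ×ˢ P) := by
    have hτ : ContinuousOn τ P := fun p hp => (h p hp).continuousAt.continuousWithinAt
    have hd : ContinuousOn (fderiv ℂ τ) P := fun p hp => (h p hp).fderiv.continuousAt.continuousWithinAt
    have h1 : ContinuousOn (fun z : Vd d × Vd d => τ z.2) (P ×ˢ P) := hτ.comp continuousOn_snd fun z hz => hz.2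
    have h2 : ContinuousOn (fun z : Vd d × Vd d => τ z.1) (P ×ˢ P) := hτ.comp continuousOn_fst fun z hz => hz.1
    have h3 : ContinuousOn (fun z : Vd d × Vd d => fderiv ℂ τ z.1) (P ×ˢ P) := hd.comp continuousOn_fst fun z hz => hz.1
    exact ((h1.sub h2).sub (h3.clm_apply (continuousOn_snd.sub continuousOn_fst))).norm
  have key : ∃ C : ℝ, 0 ≤ C ∧ ∀ z ∈ P ×ˢ P, ‖τ z.2 - τ z.1 - fderiv ℂ τ z.1 (z.2 - z.1)‖ ≤ C * ‖z.2 - z.1‖ ^ 2 := by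
    refine (hP.prod hP).induction_on (p := fun s => ∃ C : ℝ, 0 ≤ C ∧ ∀ z ∈ s, ‖τ z.2 - τ z.1 - fderiv ℂ τ z.1 (z.2 - z.1)‖ ≤ C * ‖z.2 - z.1‖ ^ 2)
      ⟨0, le_rfl, fun z hz => absurd hz (Set.notMem_empty z)⟩ ?_ ?_ ?_
    · rintro s t hst ⟨C, hC, hC'⟩
      exact ⟨C, hC, fun z hz => hC' z (hst hz)⟩
    · rintro s t ⟨C, hC, hC'⟩ ⟨D, hD, hD'⟩
      refine ⟨C + D, by linarith, fun z hz => ?_⟩
      rcases hz with hz | hz
      · exact (hC' z hz).trans (mul_le_mul_of_nonneg_right (by linarith) (by positivity))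
      · exact (hD' z hz).trans (mul_le_mul_of_nonneg_right (by linarith) (by positivity))
    · rintro ⟨p, p'⟩ hpp
      by_cases hne : p = p'
      · subst hne
        obtain ⟨r, M, hr, hM, hrM⟩ := CAtlB_taylor (h p hpp.1)
        refine ⟨ball p r ×ˢ ball p r, mem_nhdsWithin_of_mem_nhds (prod_mem_nhds (ball_mem_nhds p hr) (ball_mem_nhds p hr)), M, hM, ?_⟩
        rintro z hz
        exact hrM z.1 hz.1 z.2 hz.2
      · have hd : 0 < ‖p' - p‖ := norm_pos_iff.2 (sub_ne_zero.2 (Ne.symm hne))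
        set F : Vd d × Vd d → ℝ := fun z => ‖τ z.2 - τ z.1 - fderiv ℂ τ z.1 (z.2 - z.1)‖ with hF
        have h1 : ∀ᶠ z in 𝓝[P ×ˢ P] (p, p'), F z < F (p, p') + 1 := (hcont _ hpp).eventually_lt_const (by linarith)
        have h2 : ContinuousAt (fun z : Vd d × Vd d => ‖z.2 - z.1‖) (p, p') := by fun_prop
        have h3 : ∀ᶠ z in 𝓝 (p, p'), ‖p' - p‖ / 2 < ‖(z : Vd d × Vd d).2 - z.1‖ := h2.eventually_const_lt (by show ‖p' - p‖ / 2 < ‖p' - p‖; linarith)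
        have hF0 : 0 ≤ F (p, p') := norm_nonneg _
        refine ⟨{z | F z < F (p, p') + 1 ∧ ‖p' - p‖ / 2 < ‖z.2 - z.1‖}, h1.and (mem_nhdsWithin_of_mem_nhds h3),
          (F (p, p') + 1) / (‖p' - p‖ / 2) ^ 2, by positivity, ?_⟩
        rintro z ⟨hz1, hz2⟩
        have h4 : (‖p' - p‖ / 2) ^ 2 ≤ ‖z.2 - z.1‖ ^ 2 := pow_le_pow_left₀ (by positivity) hz2.le 2
        have h5 : (F (p, p') + 1) / (‖p' - p‖ / 2) ^ 2 * (‖p' - p‖ / 2) ^ 2 = F (p, p') + 1 := by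
          field_simp
        have h6 : (F (p, p') + 1) / (‖p' - p‖ / 2) ^ 2 * (‖p' - p‖ / 2) ^ 2 ≤ (F (p, p') + 1) / (‖p' - p‖ / 2) ^ 2 * ‖z.2 - z.1‖ ^ 2 :=
          mul_le_mul_of_nonneg_left h4 (by positivity)
        rw [h5] at h6
        exact hz1.le.trans h6
  obtain ⟨C, hC, hC'⟩ := key
  exact ⟨C, hC, fun x hx y hy => hC' (x, y) ⟨hx, hy⟩⟩

theorem chart_trans (hX : IsCone X) (χ χ' : Chart d X) : ∃ C : ℝ, 1 ≤ C ∧
    (∀ x, Good χ x → Good χ' x → ‖fderiv ℂ (fun p => χ'.q (χ.σ p)) (χ.q x)‖ ≤ C) ∧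
    ∀ x y, Good χ x → Good χ' x → Good χ y → Good χ' y →
      ‖χ'.q y - χ'.q x - fderiv ℂ (fun p => χ'.q (χ.σ p)) (χ.q x) (χ.q y - χ.q x)‖ ≤ C * ‖χ.q y - χ.q x‖ ^ 2 := by
  have hP := CAtlB_compact hX χ χ'
  set τ : Vd d → Vd d := fun p => χ'.q (χ.σ p) with hτ
  have han : ∀ p ∈ CAtlB_P χ χ', AnalyticAt ℂ τ p := fun p hp => CAtlB_an hp
  have hfd : ContinuousOn (fderiv ℂ τ) (CAtlB_P χ χ') := fun p hp => (han p hp).fderiv.continuousAt.continuousWithinAt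
  obtain ⟨C₁, hC₁⟩ := hP.exists_bound_of_continuousOn hfd
  obtain ⟨C₃, hC₃, hC₃'⟩ := CAtlB_second hP han
  refine ⟨1 + |C₁| + C₃, by have := abs_nonneg C₁; linarith, fun x hx hx' => ?_, fun x y hx hx' hy hy' => ?_⟩
  · have h1 := hC₁ _ (CAtlB_mem χ χ' hx hx').1
    have h2 := le_abs_self C₁
    linarith
  · obtain ⟨hm, he⟩ := CAtlB_mem χ χ' hx hx'
    obtain ⟨hm', he'⟩ := CAtlB_mem χ χ' hy hy'
    have h1 := hC₃' _ hm _ hm'
    have h2 : τ (χ.q x) = χ'.q x := he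
    have h3 : τ (χ.q y) = χ'.q y := he'
    rw [h2, h3] at h1
    refine h1.trans (mul_le_mul_of_nonneg_right ?_ (by positivity))
    have h4 := abs_nonneg C₁
    linarith

/-- the changes of charts are inverse to each other -/
theorem chart_inv (χ χ' : Chart d X) {x : EN N} (hx : Good χ x) (hx' : Good χ' x) (u : Vd d) :
    fderiv ℂ (fun p => χ'.q (χ.σ p)) (χ.q x) (fderiv ℂ (fun p => χ.q (χ'.σ p)) (χ'.q x) u) = u := by
  obtain ⟨hm, he⟩ := CAtlB_mem χ χ' hx hx'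
  obtain ⟨hm', he'⟩ := CAtlB_mem χ' χ hx' hx
  have h1 : HasFDerivAt (fun p => χ'.q (χ.σ p)) (fderiv ℂ (fun p => χ'.q (χ.σ p)) (χ.q x)) (χ.q (χ'.σ (χ'.q x))) := by
    rw [he']
    exact (CAtlB_an hm).differentiableAt.hasFDerivAt
  have h2 : HasFDerivAt (fun p => χ.q (χ'.σ p)) (fderiv ℂ (fun p => χ.q (χ'.σ p)) (χ'.q x)) (χ'.q x) :=
    (CAtlB_an hm').differentiableAt.hasFDerivAt
  have h3 := h1.comp (χ'.q x) h2
  have h4 : HasFDerivAt ((fun p => χ'.q (χ.σ p)) ∘ fun p => χ.q (χ'.σ p)) (ContinuousLinearMap.id ℂ (Vd d)) (χ'.q x) := by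
    apply (hasFDerivAt_id (χ'.q x)).congr_of_eventuallyEq
    have h5 : ∀ᶠ p in 𝓝 (χ'.q x), χ'.σ p ∈ χ.U :=
      ((χ'.σ_an _ (CAtlB_ball hm')).continuousAt).eventually_mem (χ.isOpen_U.mem_nhds hm'.2.1)
    filter_upwards [h5, isOpen_ball.mem_nhds (CAtlB_ball hm')] with p hp hpb
    obtain ⟨hX', hU', hq'⟩ := χ'.σ_mem p hpb
    obtain ⟨-, c, hc, h6⟩ := χ.surj _ hX' hp
    have h7 : χ.σ (χ.q (χ'.σ p)) = c⁻¹ • χ'.σ p := by
      conv_rhs => rw [h6]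
      rw [smul_smul, inv_mul_cancel₀ hc, one_smul]
    show χ'.q (χ.σ (χ.q (χ'.σ p))) = id p
    rw [h7, χ'.q_smul _ hU' _ (inv_ne_zero hc), hq', id]
  have h5 := h3.unique h4
  have h6 := congrArg (fun L : Vd d →L[ℂ] Vd d => L u) h5
  simpa using h6

end Pool.Agent.AD.BD
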