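import Pool.Agent.AD.BD.AtlA
import Pool.Agent.AD.BD.AtlB

/-!
# BD CAtl: the atlas
-/

set_option autoImplicit false

open Topology Filter Metric

namespace Pool.Agent.AD.BD

open Pool.Agent.H36.BP (EN fs wd)
open Pool.Agent.H14.PP (IsCone CurveAt Tan)
open Pool.Agent.H62.EF (MN pr)
open Pool.Agent.H5.BD (BC evp)

variable {N d : ℕ} {X : Set (EN N)}

theorem exists_atlas (hX : IsCone X) (hch : Charts d X) (hne : X.Nonempty) : Nonempty (Atlas d X) := by
  obtain ⟨n, χ, idx, δ, hδ, hgood⟩ := exists_cover hX hch hne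
  choose C₁ h1 h2 using fun i => chart_bilip hX (χ i)
  choose C₂ h3 h4 h5 using fun (i j : Fin n) => chart_trans hX (χ i) (χ j)
  have hC₁ : ∀ i, C₁ i ≤ ∑ i, C₁ i := fun i => Finset.single_le_sum (f := C₁) (fun i _ => zero_le_one.trans (h1 i)) (Finset.mem_univ i)
  have hC₂ : ∀ i j, C₂ i j ≤ ∑ i, ∑ j, C₂ i j := fun i j =>
    (Finset.single_le_sum (f := C₂ i) (fun j _ => zero_le_one.trans (h3 i j)) (Finset.mem_univ j)).trans
      (Finset.single_le_sum (f := fun i => ∑ j, C₂ i j) (fun i _ => Finset.sum_nonneg fun j _ => zero_le_one.trans (h3 i j)) (Finset.mem_univ i))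
  have hs₁ : 0 ≤ ∑ i, C₁ i := Finset.sum_nonneg fun i _ => zero_le_one.trans (h1 i)
  have hs₂ : 0 ≤ ∑ i, ∑ j, C₂ i j := Finset.sum_nonneg fun i _ => Finset.sum_nonneg fun j _ => zero_le_one.trans (h3 i j)
  set C : ℝ := 1 + ∑ i, C₁ i + ∑ i, ∑ j, C₂ i j with hC
  refine ⟨⟨n, χ, idx, δ, C, hδ, by linarith, hgood, fun i x y hx hy => ?_, fun i x y hx hy => ?_, fun i j x hx hy => ?_, fun i j x u hx hy => chart_inv (χ i) (χ j) hx hy u,
    fun i j x y hx hx' hy hy' => ?_⟩⟩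
  · exact (h2 i x y hx hy).1.trans (mul_le_mul_of_nonneg_right (by linarith [hC₁ i]) (norm_nonneg _))
  · exact (h2 i x y hx hy).2.trans (mul_le_mul_of_nonneg_right (by linarith [hC₁ i]) dist_nonneg)
  · exact (h4 i j x hx hy).trans (by linarith [hC₂ i j])
  · exact (h5 i j x y hx hx' hy hy').trans (mul_le_mul_of_nonneg_right (by linarith [hC₂ i j]) (by positivity))

end Pool.Agent.AD.BD
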