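import Pool.Agent.H5.BD.CDef
import Pool.Agent.AD.ChartBasic

/-!
# AD BD Defs: curves with bounded distortion in dimension `d`, local analysis: definitions

The family `BC X c L` (`H5.BD.BC`), `evp` and the abstract part `H5.BD.BFlow` are dimension free.
-/

set_option autoImplicit false

open Topology Filter Metric

namespace Pool.Agent.AD.BD

open Pool.Agent.H36.BP (EN fs wd)
open Pool.Agent.H14.PP (IsCone CurveAt Tan)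
open Pool.Agent.H62.EF (MN pr)
open Pool.Agent.H5.BD (BC evp)

variable {N d : ℕ}

/-- `x` is in the middle of the chart -/
def Good {X : Set (EN N)} (χ : Chart d X) (x : EN N) : Prop := x ∈ X ∧ x ∈ χ.U ∧ ‖χ.q x‖ ≤ 1 / 2

/-- a finite atlas with a Lebesgue number `δ`, and a bound `C` for the charts and the changes of charts -/
structure Atlas (d : ℕ) (X : Set (EN N)) where
  n : ℕ
  χ : Fin n → Chart d X
  idx : MN N → Fin n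
  δ : ℝ
  C : ℝ
  δ_pos : 0 < δ
  one_le : 1 ≤ C
  good : ∀ x ∈ X, ∀ y ∈ X, dist (pr x) (pr y) ≤ δ → Good (χ (idx (pr x))) y
  dist_le : ∀ i x y, Good (χ i) x → Good (χ i) y → dist (pr x) (pr y) ≤ C * ‖(χ i).q x - (χ i).q y‖
  le_dist : ∀ i x y, Good (χ i) x → Good (χ i) y → ‖(χ i).q x - (χ i).q y‖ ≤ C * dist (pr x) (pr y)
  fd_le : ∀ i j x, Good (χ i) x → Good (χ j) x → ‖fderiv ℂ (fun p => (χ j).q ((χ i).σ p)) ((χ i).q x)‖ ≤ C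
  fd_inv : ∀ i j x u, Good (χ i) x → Good (χ j) x →
    fderiv ℂ (fun p => (χ j).q ((χ i).σ p)) ((χ i).q x) (fderiv ℂ (fun p => (χ i).q ((χ j).σ p)) ((χ j).q x) u) = u
  trans : ∀ i j x y, Good (χ i) x → Good (χ j) x → Good (χ i) y → Good (χ j) y →
    ‖(χ j).q y - (χ j).q x - fderiv ℂ (fun p => (χ j).q ((χ i).σ p)) ((χ i).q x) ((χ i).q y - (χ i).q x)‖ ≤
      C * ‖(χ i).q y - (χ i).q x‖ ^ 2

/-- the curve `F` in the chart `i` -/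
noncomputable def qc {X : Set (EN N)} (A : Atlas d X) (i : Fin A.n) (F : ℂ → EN N) (z : ℂ) : Vd d := (A.χ i).q (F z)

/-- uniform bounds for the curves of `BC X c L` in the charts of the atlas, on discs of radius `r₀` -/
structure LC {X : Set (EN N)} (A : Atlas d X) (c L r₀ c₁ K : ℝ) : Prop where
  r₀_pos : 0 < r₀
  c₁_pos : 0 < c₁
  one_le : 1 ≤ K
  L_pos : 0 < L
  lip : ∀ F ∈ BC X c L, ∀ z w, dist (pr (F z)) (pr (F w)) ≤ 2 * L * ‖z - w‖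
  good : ∀ F ∈ BC X c L, ∀ x ∈ X, ∀ w₀, dist (pr x) (pr (F w₀)) ≤ A.δ / 2 → ∀ w ∈ ball w₀ r₀, Good (A.χ (A.idx (pr x))) (F w)
  an : ∀ F ∈ BC X c L, ∀ i w, Good (A.χ i) (F w) → AnalyticAt ℂ (qc A i F) w
  der_ge : ∀ F ∈ BC X c L, ∀ i w, Good (A.χ i) (F w) → c₁ ≤ ‖deriv (qc A i F) w‖
  der_le : ∀ F ∈ BC X c L, ∀ i w, Good (A.χ i) (F w) → ‖deriv (qc A i F) w‖ ≤ K
  der_lip : ∀ F ∈ BC X c L, ∀ i w₀, (∀ w ∈ ball w₀ r₀, Good (A.χ i) (F w)) → ∀ w ∈ ball w₀ (r₀ / 2), ∀ w' ∈ ball w₀ (r₀ / 2),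
    ‖deriv (qc A i F) w - deriv (qc A i F) w'‖ ≤ K * ‖w - w'‖

/-- in the chart `i` the points `F (ψ z)` (near `F w₀`) and `G z` (near `G z₀`) have the same coordinate `e` -/
structure Match {X : Set (EN N)} (A : Atlas d X) (r₂ r₃ K : ℝ) (F G : ℂ → EN N) (i : Fin A.n) (w₀ z₀ : ℂ) (e : Fin d) (ψ : ℂ → ℂ) : Prop where
  hol : DifferentiableOn ℂ ψ (ball z₀ (2 * r₃))
  mem : ∀ z ∈ ball z₀ (2 * r₃), ψ z ∈ closedBall w₀ r₂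
  eq : ∀ z ∈ ball z₀ (2 * r₃), qc A i F (ψ z) e = qc A i G z e
  goodF : ∀ w ∈ closedBall w₀ (2 * r₂), Good (A.χ i) (F w)
  goodG : ∀ z ∈ ball z₀ (2 * r₃), Good (A.χ i) (G z)
  near : ∀ z ∈ ball z₀ (2 * r₃), ∀ w ∈ closedBall w₀ (2 * r₂), ‖w - ψ z‖ ≤ K * ‖qc A i F w - qc A i G z‖
  coF : ∀ w ∈ closedBall w₀ (2 * r₂), 1 ≤ K * ‖deriv (qc A i F) w e‖

/-- the constants of the matching -/
structure MC {X : Set (EN N)} (A : Atlas d X) (c L r₀ c₁ K₀ r₂ r₃ ε₃ K : ℝ) : Prop where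
  lc : LC A c L r₀ c₁ K₀
  r₂_pos : 0 < r₂
  r₃_pos : 0 < r₃
  ε₃_pos : 0 < ε₃
  le_K : K₀ ≤ K
  r₂_le : 8 * r₂ ≤ r₀
  r₃_le : 4 * r₃ ≤ r₀
  r₃_le₂ : r₃ ≤ r₂
  emb : ∀ F ∈ BC X c L, ∀ z w, ‖z - w‖ ≤ 4 * r₂ → K⁻¹ * ‖z - w‖ ≤ dist (pr (F z)) (pr (F w))
  matching : ∀ F ∈ BC X c L, ∀ G ∈ BC X c L, ∀ w₀ z₀, dist (pr (G z₀)) (pr (F w₀)) ≤ ε₃ →
    ∃ e ψ, Match A r₂ r₃ K F G (A.idx (pr (F w₀))) w₀ z₀ e ψ

/-- the length of the forms `Ω` on the pair of tangent vectors `u`, `w` at the point `p` of the chart -/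
noncomputable def Nn {X : Set (EN N)} {m K : ℕ} (Ω : Fin K → BForm d X m) (χ : Chart d X) (p u w : Vd d) : ℝ :=
  (∑ k, ‖(Ω k).toFun (χ.σ p) (fderiv ℂ χ.σ p u) (fderiv ℂ χ.σ p w)‖) * ‖χ.σ p‖

/-- bounds for the difference of `F (ψ z)` and `G z` in the chart -/
structure DBound {X : Set (EN N)} (A : Atlas d X) (F G : ℂ → EN N) (i : Fin A.n) (z₀ : ℂ) (e : Fin d) (ψ : ℂ → ℂ) (s ε K₂ : ℝ) : Prop where
  le : ∀ z ∈ closedBall z₀ s, ‖qc A i F (ψ z) - qc A i G z‖ ≤ K₂ * ε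
  ang : ∀ z ∈ closedBall z₀ (s / 2), ‖deriv ψ z • deriv (qc A i F) (ψ z) - deriv (qc A i G) z‖ ≤ K₂ * (ε / s)
  low : K₂ * (ε / s) ≤ 1 → ∀ z ∈ closedBall z₀ (s / 2), 1 ≤ K₂ * ‖deriv ψ z‖ ∧ 1 ≤ K₂ * ‖deriv (qc A i G) z e‖

end Pool.Agent.AD.BD
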