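import Pool.Agent.AD.BD.Defs

/-!
# AD BD Dm: the function `d = qc A i F (ψ z) - qc A i G z`
-/

set_option autoImplicit false

open Topology Filter Metric

namespace Pool.Agent.AD.BD

open Pool.Agent.H36.BP (EN fs wd)
open Pool.Agent.H14.PP (IsCone CurveAt Tan)
open Pool.Agent.H62.EF (MN pr)
open Pool.Agent.H5.BD (BC evp)

variable {N d : ℕ} {X : Set (EN N)} {A : Atlas d X} {c L r₀ c₁ K₀ r₂ r₃ ε₃ K : ℝ}

theorem MC.d_hasDeriv (h : MC A c L r₀ c₁ K₀ r₂ r₃ ε₃ K) {F G : ℂ → EN N} (hF : F ∈ BC X c L) (hG : G ∈ BC X c L)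
    {i : Fin A.n} {w₀ z₀ : ℂ} {e : Fin d} {ψ : ℂ → ℂ} (hm : Match A r₂ r₃ K F G i w₀ z₀ e ψ) {z : ℂ} (hz : z ∈ ball z₀ (2 * r₃)) :
    HasDerivAt (fun z => qc A i F (ψ z) - qc A i G z) (deriv ψ z • deriv (qc A i F) (ψ z) - deriv (qc A i G) z) z := by
  have h1 : HasDerivAt ψ (deriv ψ z) z := ((hm.hol z hz).differentiableAt (isOpen_ball.mem_nhds hz)).hasDerivAt
  have hψ : ψ z ∈ closedBall w₀ (2 * r₂) := by
    have := hm.mem z hz
    rw [mem_closedBall] at this ⊢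
    have h2 := h.r₂_pos
    linarith
  have h2 : HasDerivAt (qc A i F) (deriv (qc A i F) (ψ z)) (ψ z) :=
    (h.lc.an F hF i _ (hm.goodF _ hψ)).differentiableAt.hasDerivAt
  have h3 : HasDerivAt (qc A i G) (deriv (qc A i G) z) z :=
    (h.lc.an G hG i _ (hm.goodG _ hz)).differentiableAt.hasDerivAt
  have h4 : HasDerivAt (fun z => qc A i F (ψ z)) (deriv ψ z • deriv (qc A i F) (ψ z)) z := h2.scomp z h1
  exact h4.sub h3

theorem MC.d_hol (h : MC A c L r₀ c₁ K₀ r₂ r₃ ε₃ K) {F G : ℂ → EN N} (hF : F ∈ BC X c L) (hG : G ∈ BC X c L) {i : Fin A.n} {w₀ z₀ : ℂ}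
    {e : Fin d} {ψ : ℂ → ℂ} (hm : Match A r₂ r₃ K F G i w₀ z₀ e ψ) :
    DifferentiableOn ℂ (fun z => qc A i F (ψ z) - qc A i G z) (ball z₀ (2 * r₃)) := by
  intro z hz
  exact (h.d_hasDeriv hF hG hm hz).differentiableAt.differentiableWithinAt

theorem MC.exists_dBound (h : MC A c L r₀ c₁ K₀ r₂ r₃ ε₃ K) : ∃ K₂ : ℝ, 1 ≤ K₂ ∧ ∀ F ∈ BC X c L, ∀ G ∈ BC X c L, ∀ i w₀ z₀ e ψ,
    Match A r₂ r₃ K F G i w₀ z₀ e ψ → ∀ s ε : ℝ, 0 < s → s ≤ r₃ → 0 ≤ ε →
      (∀ z ∈ closedBall z₀ s, ∃ w ∈ closedBall w₀ (2 * r₂), dist (pr (G z)) (pr (F w)) ≤ ε) → DBound A F G i z₀ e ψ s ε K₂ := by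
  have hK₀ : 1 ≤ K₀ := h.lc.one_le
  have hK : 1 ≤ K := hK₀.trans h.le_K
  have hC : 1 ≤ A.C := A.one_le
  have hc₁ : 0 < c₁ := h.lc.c₁_pos
  have hr₂ : 0 < r₂ := h.r₂_pos
  have hr₃ : 0 < r₃ := h.r₃_pos
  set M : ℝ := (1 + K ^ 2) * A.C with hMdef
  have hM1 : 1 ≤ M := by rw [hMdef]; nlinarith [sq_nonneg K]
  have hM0 : 0 < M := by linarith
  have p2 : 0 ≤ 4 * M / c₁ := by positivity
  have p3 : 0 ≤ 2 * K / c₁ := by positivity
  have p4 : 0 ≤ 2 * K ^ 2 / c₁ := by positivity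
  refine ⟨2 * M + 4 * M / c₁ + 2 * K / c₁ + 2 * K ^ 2 / c₁, by linarith, ?_⟩
  intro F hF G hG i w₀ z₀ e ψ hm s ε hs hsr hε hw
  have hsub : closedBall z₀ s ⊆ ball z₀ (2 * r₃) := closedBall_subset_ball (by linarith)
  -- (1)
  have hd : ∀ z ∈ closedBall z₀ s, ‖qc A i F (ψ z) - qc A i G z‖ ≤ M * ε := by
    intro z hz
    obtain ⟨w, hwm, hwd⟩ := hw z hz
    have hzb := hsub hz
    have e1 : ‖qc A i F w - qc A i G z‖ ≤ A.C * ε := by
      have := A.le_dist i (F w) (G z) (hm.goodF w hwm) (hm.goodG z hzb)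
      rw [dist_comm] at this
      exact this.trans (mul_le_mul_of_nonneg_left hwd (by linarith))
    have e2 : ‖w - ψ z‖ ≤ K * (A.C * ε) :=
      (hm.near z hzb w hwm).trans (mul_le_mul_of_nonneg_left e1 (by linarith))
    have hψ : ψ z ∈ closedBall w₀ (2 * r₂) := closedBall_subset_closedBall (by linarith) (hm.mem z hzb)
    have e3 : ‖qc A i F (ψ z) - qc A i F w‖ ≤ K * ‖ψ z - w‖ := by
      refine Convex.norm_image_sub_le_of_norm_deriv_le (𝕜 := ℂ) (s := closedBall w₀ (2 * r₂)) ?_ ?_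
        (convex_closedBall _ _) hwm hψ
      · intro x hx
        exact (h.lc.an F hF i x (hm.goodF x hx)).differentiableAt
      · intro x hx
        exact (h.lc.der_le F hF i x (hm.goodF x hx)).trans h.le_K
    have e4 : ‖ψ z - w‖ ≤ K * (A.C * ε) := by rw [norm_sub_rev]; exact e2
    have e5 : qc A i F (ψ z) - qc A i G z = (qc A i F (ψ z) - qc A i F w) + (qc A i F w - qc A i G z) := by abel
    rw [e5]
    refine (norm_add_le _ _).trans ?_
    have e6 : K * ‖ψ z - w‖ ≤ K * (K * (A.C * ε)) := mul_le_mul_of_nonneg_left e4 (by linarith)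
    have e7 : K * (K * (A.C * ε)) + A.C * ε = M * ε := by rw [hMdef]; ring
    linarith
  -- (2)
  have hd' : ∀ z ∈ closedBall z₀ (s / 2), ‖deriv ψ z • deriv (qc A i F) (ψ z) - deriv (qc A i G) z‖ ≤ 2 * M * (ε / s) := by
    intro z hz
    have hzs : closedBall z (s / 2) ⊆ closedBall z₀ s := by
      apply closedBall_subset_closedBall'
      rw [mem_closedBall] at hz
      linarith
    have hzb : z ∈ ball z₀ (2 * r₃) := hsub (hzs (mem_closedBall_self (by linarith)))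
    have h1 := (h.d_hasDeriv hF hG hm hzb).deriv
    rw [← h1]
    have h2 : DifferentiableOn ℂ (fun z => qc A i F (ψ z) - qc A i G z) (closedBall z (s / 2)) :=
      (h.d_hol hF hG hm).mono (hzs.trans hsub)
    have h3 : DiffContOnCl ℂ (fun z => qc A i F (ψ z) - qc A i G z) (ball z (s / 2)) :=
      h2.diffContOnCl_ball subset_rfl
    have h4 := Complex.norm_deriv_le_of_forall_mem_sphere_norm_le (by linarith : 0 < s / 2) h3
      (fun u hu => hd u (hzs (sphere_subset_closedBall hu)))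
    refine h4.trans (le_of_eq ?_)
    field_simp
  have hψm : ∀ z ∈ closedBall z₀ (s / 2), z ∈ ball z₀ (2 * r₃) ∧ ψ z ∈ closedBall w₀ (2 * r₂) := by
    intro z hz
    have hzb : z ∈ ball z₀ (2 * r₃) := hsub (closedBall_subset_closedBall (by linarith) hz)
    exact ⟨hzb, closedBall_subset_closedBall (by linarith) (hm.mem z hzb)⟩
  have hεs : 0 ≤ ε / s := by positivity
  refine ⟨?_, ?_, ?_⟩
  · intro z hz
    refine (hd z hz).trans ?_
    apply mul_le_mul_of_nonneg_right _ hε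
    linarith
  · intro z hz
    refine (hd' z hz).trans ?_
    apply mul_le_mul_of_nonneg_right _ hεs
    linarith
  · intro hsmall z hz
    obtain ⟨hzb, hψ⟩ := hψm z hz
    have a1 := hd' z hz
    have hcod : (deriv ψ z • deriv (qc A i F) (ψ z) - deriv (qc A i G) z) e = 0 := by
      have h1 := (hasDerivAt_pi.1 (h.d_hasDeriv hF hG hm hzb)) e
      have h2 : HasDerivAt (fun z => (qc A i F (ψ z) - qc A i G z) e) 0 z := by
        apply (hasDerivAt_const z (0 : ℂ)).congr_of_eventuallyEq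
        filter_upwards [isOpen_ball.mem_nhds hzb] with u hu
        rw [Pi.sub_apply, hm.eq u hu, sub_self]
      exact h1.unique h2
    set a := deriv (qc A i F) (ψ z) with ha
    set b := deriv (qc A i G) z with hb
    have a3 : ‖a‖ ≤ K := (h.lc.der_le F hF i _ (hm.goodF _ hψ)).trans h.le_K
    have a4 : c₁ ≤ ‖b‖ := h.lc.der_ge G hG i _ (hm.goodG _ hzb)
    have a5 : 1 ≤ K * ‖a e‖ := hm.coF _ hψ
    have a6 : b e = deriv ψ z * a e := by
      rw [Pi.sub_apply, Pi.smul_apply, smul_eq_mul] at hcod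
      exact (sub_eq_zero.1 hcod).symm
    have a7 : ‖deriv ψ z • a - b‖ ≤ c₁ / 2 := by
      refine a1.trans ?_
      have h1 : 4 * M / c₁ * (ε / s) ≤ 1 := by
        refine le_trans ?_ hsmall
        apply mul_le_mul_of_nonneg_right _ hεs
        linarith
      have h2 : 2 * M * (ε / s) = (c₁ / 2) * (4 * M / c₁ * (ε / s)) := by
        field_simp
        ring
      rw [h2]
      have := mul_le_mul_of_nonneg_left h1 (by positivity : 0 ≤ c₁ / 2)
      linarith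
    have a8 : c₁ / 2 ≤ K * ‖deriv ψ z‖ := by
      have h1 : b = deriv ψ z • a - (deriv ψ z • a - b) := by abel
      have h2 : ‖b‖ ≤ ‖deriv ψ z • a‖ + ‖deriv ψ z • a - b‖ := by
        calc ‖b‖ = ‖deriv ψ z • a - (deriv ψ z • a - b)‖ := by rw [← h1]
          _ ≤ _ := norm_sub_le _ _
      rw [norm_smul] at h2
      have h3 : ‖deriv ψ z‖ * ‖a‖ ≤ ‖deriv ψ z‖ * K := mul_le_mul_of_nonneg_left a3 (norm_nonneg _)
      nlinarith
    have a9 : c₁ / 2 ≤ K ^ 2 * ‖b e‖ := by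
      rw [a6, norm_mul]
      have h1 : ‖deriv ψ z‖ * 1 ≤ ‖deriv ψ z‖ * (K * ‖a e‖) := mul_le_mul_of_nonneg_left a5 (norm_nonneg _)
      have h2 : K * (‖deriv ψ z‖ * 1) ≤ K * (‖deriv ψ z‖ * (K * ‖a e‖)) := mul_le_mul_of_nonneg_left h1 (by linarith)
      calc c₁ / 2 ≤ K * ‖deriv ψ z‖ := a8
        _ = K * (‖deriv ψ z‖ * 1) := by ring
        _ ≤ K * (‖deriv ψ z‖ * (K * ‖a e‖)) := h2
        _ = K ^ 2 * (‖deriv ψ z‖ * ‖a e‖) := by ring
    constructor
    · have h1 : 2 * K / c₁ * ‖deriv ψ z‖ = (2 / c₁) * (K * ‖deriv ψ z‖) := by ring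
      have h2 : (1 : ℝ) = (2 / c₁) * (c₁ / 2) := by field_simp
      have h3 : 1 ≤ 2 * K / c₁ * ‖deriv ψ z‖ := by
        rw [h1]
        calc (1 : ℝ) = (2 / c₁) * (c₁ / 2) := h2
          _ ≤ _ := mul_le_mul_of_nonneg_left a8 (by positivity)
      refine h3.trans ?_
      apply mul_le_mul_of_nonneg_right _ (norm_nonneg _)
      linarith
    · have h1 : 2 * K ^ 2 / c₁ * ‖b e‖ = (2 / c₁) * (K ^ 2 * ‖b e‖) := by ring
      have h2 : (1 : ℝ) = (2 / c₁) * (c₁ / 2) := by field_simp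
      have h3 : 1 ≤ 2 * K ^ 2 / c₁ * ‖b e‖ := by
        rw [h1]
        calc (1 : ℝ) = (2 / c₁) * (c₁ / 2) := h2
          _ ≤ _ := mul_le_mul_of_nonneg_left a9 (by positivity)
      refine h3.trans ?_
      apply mul_le_mul_of_nonneg_right _ (norm_nonneg _)
      linarith

end Pool.Agent.AD.BD
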