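import Pool.Agent.AD.BD.Rho

/-!
# AD BD Sm: if `rh` is small then the point is near the plaque; the identity theorem for plaques
-/

set_option autoImplicit false

open Topology Filter Metric

namespace Pool.Agent.AD.BD

open Pool.Agent.H36.BP (EN fs wd)
open Pool.Agent.H14.PP (IsCone CurveAt Tan)
open Pool.Agent.H62.EF (MN pr)
open Pool.Agent.H5.BD (BC evp FolAt Pl)

variable {N d : ℕ} {X : Set (EN N)} {A : Atlas d X} {c L r₀ c₁ K₀ r₂ r₃ ε₃ K : ℝ} {m J : ℕ}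

theorem rh_small (hX : IsCone X) (h : MC A c L r₀ c₁ K₀ r₂ r₃ ε₃ K) (hm : 1 ≤ m) (Ω : Fin J → BForm d X m) (hΩ : NoZero Ω) {s : ℝ} (hs : 0 < s)
    (hs₃ : s ≤ r₃) :
    ∃ ε : ℝ, 0 < ε ∧ ∀ η : ℝ, 0 < η → ∃ δ : ℝ, 0 < δ ∧ ∀ F ∈ BC X c L, ∀ G ∈ BC X c L, ∀ z₀ φ, FolAt evp r₂ s ε F G z₀ φ →
      rh A Ω r₂ F (φ z₀) G z₀ ≤ δ → ∃ w ∈ closedBall (φ z₀) r₂, dist (evp G z₀) (evp F w) ≤ η := by
  obtain ⟨ε, c₂, hε, hε₃, hc₂, hcmp⟩ := rh_cmp hX h hm Ω hΩ hs hs₃ (η := 1) one_pos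
  have hC0 : 0 < A.C := lt_of_lt_of_le one_pos A.one_le
  refine ⟨ε, hε, fun η hη => ?_⟩
  refine ⟨Real.exp (-1) * (c₂ * (η / A.C) ^ m), by positivity, fun F hF G hG z₀ φ hfol hrh => ?_⟩
  have hz₀ : z₀ ∈ closedBall z₀ s := mem_closedBall_self hs.le
  obtain ⟨e, ψ, hmat⟩ := h.matching F hF G hG (φ z₀) z₀ ((hfol z₀ hz₀).1.trans hε₃)
  obtain ⟨h1, -, h3⟩ := hcmp F hF G hG z₀ φ hfol e ψ hmat z₀ (mem_closedBall_self (by positivity)) _ rfl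
  set k := A.idx (pr (F (φ z₀))) with hk
  have h2 := h1.trans hrh
  have h4 := le_of_mul_le_mul_left h2 (Real.exp_pos _)
  have h5 : ‖qc A k F (ψ z₀) - qc A k G z₀‖ ^ m ≤ (η / A.C) ^ m := le_of_mul_le_mul_left (h3.trans h4) hc₂
  have hr₂ := h.r₂_pos
  have hr₃ := h.r₃_pos
  have hzb : z₀ ∈ ball z₀ (2 * r₃) := mem_ball_self (by positivity)
  have h11 : ‖qc A k F (ψ z₀) - qc A k G z₀‖ ≤ η / A.C := by
    by_contra hcon
    push Not at hcon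
    have h6 := pow_lt_pow_left₀ hcon (by positivity) (show m ≠ 0 by omega)
    linarith
  have hψ := hmat.mem z₀ hzb
  have hψ2 : ψ z₀ ∈ closedBall (φ z₀) (2 * r₂) := closedBall_subset_closedBall (by linarith) hψ
  refine ⟨ψ z₀, hψ, ?_⟩
  rw [dist_comm]
  calc dist (evp F (ψ z₀)) (evp G z₀) ≤ A.C * ‖qc A k F (ψ z₀) - qc A k G z₀‖ :=
        A.dist_le k _ _ (hmat.goodF _ hψ2) (hmat.goodG z₀ hzb)
    _ ≤ A.C * (η / A.C) := mul_le_mul_of_nonneg_left h11 hC0.le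
    _ = η := by field_simp

theorem MC.ident (h : MC A c L r₀ c₁ K₀ r₂ r₃ ε₃ K) : ∃ ε : ℝ, 0 < ε ∧ ∀ F ∈ BC X c L, ∀ G ∈ BC X c L, ∀ z₀ w₀,
    dist (evp G z₀) (evp F w₀) ≤ ε → ∀ z₁ ∈ closedBall z₀ r₃, (∃ᶠ z in 𝓝[≠] z₁, evp G z ∈ Pl evp r₂ F w₀) →
      ∀ z ∈ closedBall z₀ r₃, evp G z ∈ Pl evp r₂ F w₀ := by
  refine ⟨ε₃, h.ε₃_pos, fun F hF G hG z₀ w₀ hd z₁ hz₁ hfreq z hz => ?_⟩
  have hr₂ := h.r₂_pos
  have hr₃ := h.r₃_pos
  obtain ⟨e, ψ, hmat⟩ := h.matching F hF G hG w₀ z₀ hd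
  set i := A.idx (pr (F w₀)) with hi
  set D : ℂ → Vd d := fun z => qc A i F (ψ z) - qc A i G z with hdd
  have hhol : DifferentiableOn ℂ D (ball z₀ (2 * r₃)) := h.d_hol hF hG hmat
  have han : AnalyticOnNhd ℂ D (ball z₀ (2 * r₃)) := hhol.analyticOnNhd isOpen_ball
  have hz₁b : z₁ ∈ ball z₀ (2 * r₃) := closedBall_subset_ball (by linarith) hz₁
  have hzb : z ∈ ball z₀ (2 * r₃) := closedBall_subset_ball (by linarith) hz
  have hzero : ∀ y ∈ ball z₀ (2 * r₃), evp G y ∈ Pl evp r₂ F w₀ → D y = 0 := by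
    rintro y hy ⟨w, hw, hwy⟩
    have hw2 : w ∈ closedBall w₀ (2 * r₂) := closedBall_subset_closedBall (by linarith) hw
    have h1 : ‖qc A i F w - qc A i G y‖ ≤ 0 := by
      have h2 := A.le_dist i (F w) (G y) (hmat.goodF w hw2) (hmat.goodG y hy)
      have h3 : dist (pr (F w)) (pr (G y)) = 0 := by
        have h4 : pr (F w) = pr (G y) := hwy
        rw [h4, dist_self]
      rw [h3, mul_zero] at h2
      exact h2
    have h5 := hmat.near y hy w hw2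
    have h6 : ‖w - ψ y‖ ≤ 0 := by
      have h7 : ‖qc A i F w - qc A i G y‖ = 0 := le_antisymm h1 (norm_nonneg _)
      rw [h7, mul_zero] at h5
      exact h5
    have h8 : w = ψ y := sub_eq_zero.1 (norm_le_zero_iff.1 h6)
    have h9 : qc A i F w - qc A i G y = 0 := norm_le_zero_iff.1 h1
    show qc A i F (ψ y) - qc A i G y = 0
    rw [← h8]; exact h9
  have hfreq' : ∃ᶠ y in 𝓝[≠] z₁, D y = 0 := by
    have h1 : ∀ᶠ y in 𝓝[≠] z₁, y ∈ ball z₀ (2 * r₃) := mem_nhdsWithin_of_mem_nhds (isOpen_ball.mem_nhds hz₁b)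
    exact (hfreq.and_eventually h1).mono fun y hy => hzero y hy.2 hy.1
  have hEq := han.eqOn_zero_of_preconnected_of_frequently_eq_zero (convex_ball z₀ (2 * r₃)).isPreconnected hz₁b hfreq'
  have hdz : qc A i F (ψ z) - qc A i G z = 0 := hEq hzb
  have hψ := hmat.mem z hzb
  have hψ2 : ψ z ∈ closedBall w₀ (2 * r₂) := closedBall_subset_closedBall (by linarith) hψ
  have h1 := A.dist_le i (F (ψ z)) (G z) (hmat.goodF _ hψ2) (hmat.goodG z hzb)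
  have h2 : (A.χ i).q (F (ψ z)) - (A.χ i).q (G z) = 0 := hdz
  rw [h2, norm_zero, mul_zero] at h1
  exact ⟨ψ z, hψ, dist_le_zero.1 h1⟩

end Pool.Agent.AD.BD
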