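import Pool.Agent.H5.BD.AFin
import Pool.Agent.H5.BD.CTr
import Pool.Agent.AD.BD.LI
import Pool.Agent.AD.BD.Sm

/-!
# AD BD Flow: the family of the curves with bounded distortion
-/

set_option autoImplicit false

open Topology Filter Metric

namespace Pool.Agent.AD.BD

open Pool.Agent.H36.BP (EN fs wd)
open Pool.Agent.H14.PP (IsCone CurveAt Tan)
open Pool.Agent.H62.EF (MN pr)
open Pool.Agent.H5.BD (BC evp FolAt Pl BFlow bc_trans bc_lim)

variable {N d : ℕ} {X : Set (EN N)} {A : Atlas d X} {c L r₀ c₁ K₀ r₂ r₃ ε₃ K : ℝ} {m J : ℕ}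

theorem MC.flow (hX : IsCone X) (h : MC A c L r₀ c₁ K₀ r₂ r₃ ε₃ K) (hm : 1 ≤ m) (Ω : Fin J → BForm d X m) (hΩ : NoZero Ω) :
    BFlow (BC X c L) evp (∅ : Set (MN N)) (rh A Ω r₂) (2 * L) K⁻¹ r₂ r₃ (K⁻¹ ^ 2 / 8) where
  L_pos := by have := h.lc.L_pos; positivity
  c_pos := inv_pos.2 (lt_of_lt_of_le one_pos (h.lc.one_le.trans h.le_K))
  r₂_pos := h.r₂_pos
  r₃_pos := h.r₃_pos
  κ_pos := by
    have : 0 < K := lt_of_lt_of_le one_pos (h.lc.one_le.trans h.le_K)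
    positivity
  lip := fun F hF z w => h.lc.lip F hF z w
  emb := fun F hF z w hzw => h.emb F hF z w hzw
  trans := fun F hF a => ⟨_, bc_trans hF a, fun _ => rfl⟩
  lim := fun 𝒰 h𝒰 F hF => bc_lim hX h.lc.L_pos 𝒰 h𝒰 F hF
  closed := isClosed_empty
  dense := fun F _ => Or.inr fun z₀ => Eventually.of_forall fun z => Set.notMem_empty _
  bdd := rh_bdd h Ω
  loc := fun s hs hs₃ => rh_loc hX h hm Ω hΩ hs hs₃
  small := fun s hs hs₃ => by
    obtain ⟨ε, hε, h1⟩ := rh_small hX h hm Ω hΩ hs hs₃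
    refine ⟨ε, hε, fun η hη => ?_⟩
    obtain ⟨δ, hδ, h2⟩ := h1 η hη
    exact ⟨δ, hδ, fun F hF G hG z₀ φ hfol hrh => Or.inr (h2 F hF G hG z₀ φ hfol hrh)⟩
  ident := h.ident
  iso := fun G _ hGZ => absurd (hGZ 0) (Set.notMem_empty _)

end Pool.Agent.AD.BD
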