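import Pool.Agent.AD.BD.Loc
import Pool.Agent.H5.BD.CInv

/-!
# BD CMat: matching of the parameters

Let `LC A c L r₀ c₁ K₀`, `C = A.C`, `δ = A.δ`.  Choose (in this order)
`r₂ = min (r₀ / 32) (c₁ / (64 K₀))`, `r₃ = min (r₂) (c₁ r₂ / (64 K₀))` (so `4 r₃ ≤ r₀`, `2 K₀ r₃ ≤ c₁ r₂ / 32`), `ε₃ = min (δ / 2) (c₁ r₂ / (32 C))`, `K = max K₀ (2 C / c₁)`.
Let `F ∈ BC X c L`, `w₀ ∈ ℂ`, `i = A.idx (pr (F w₀))`.  By `LC.good` (`x = F w₀`) `F w` is good for `i` on `ball w₀ r₀`.  `p = qc A i F` is analytic there.  Let `e` be such that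
`‖co e (p' w₀)‖ = ‖p' w₀‖ ≥ c₁` (the norm of `ℂ × ℂ` is the maximum), `u = co e ∘ p`, `u' = co e ∘ p'`; on `ball w₀ (8 r₂)`: `‖u' w - u' w₀‖ ≤ K₀ 8 r₂ ≤ c₁ / 4` (`der_lip`, `8 r₂ ≤ r₀ / 2`).
`exists_inv` with `a = c₁`, `r = 8 r₂`: `(c₁ / 2) ‖w - w'‖ ≤ ‖u w - u w'‖ ≤ ‖p w - p w'‖` on `ball w₀ (8 r₂)`.  `exists_inv` with `r = r₂`: the inverse `ξ` on `ball (u w₀) (c₁ r₂ / 4)` with values in `ball w₀ r₂`.
`emb`: for `‖z - w‖ ≤ 4 r₂` use this with `w₀ = z`: `(c₁ / 2) ‖z - w‖ ≤ ‖p z - p w‖ ≤ C dist (pr (F z)) (pr (F w))` (`le_dist`).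
`matching`: `dist (pr (G z₀)) (pr (F w₀)) ≤ ε₃ ≤ δ / 2`, so `G z` is good for `i` on `ball z₀ r₀` (`LC.good` with `x = F w₀`).  For `z ∈ ball z₀ (2 r₃)`: `‖qc A i G z - qc A i G z₀‖ ≤ K₀ 2 r₃` (mean value
inequality, `der_le`), `‖qc A i G z₀ - p w₀‖ ≤ C ε₃` (`le_dist`), together `< c₁ r₂ / 4`.  So `ψ z = ξ (co e (qc A i G z))` is defined and holomorphic on `ball z₀ (2 r₃)`, with values in `ball w₀ r₂`, and
`u (ψ z) = co e (qc A i G z)`.
`near`: for `w ∈ closedBall w₀ (2 r₂)`: `(c₁ / 2) ‖w - ψ z‖ ≤ ‖u w - u (ψ z)‖ = ‖co e (p w - qc A i G z)‖ ≤ ‖p w - qc A i G z‖`.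
`coF`: `‖u' w‖ ≥ c₁ - c₁ / 4 ≥ c₁ / 2`.
-/

set_option autoImplicit false

open Topology Filter Metric

namespace Pool.Agent.AD.BD

open Pool.Agent.H36.BP (EN fs wd)
open Pool.Agent.H14.PP (IsCone CurveAt Tan)
open Pool.Agent.H62.EF (MN pr)
open Pool.Agent.H5.BD (BC evp exists_inv)

variable {N d : ℕ} {X : Set (EN N)}

private def co (e : Fin d) (p : Vd d) : ℂ := p e

private noncomputable def coL (e : Fin d) : Vd d →L[ℂ] ℂ := ContinuousLinearMap.proj e

private theorem coL_apply (e : Fin d) (p : Vd d) : coL e p = co e p := rfl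

private theorem norm_co_le (e : Fin d) (p : Vd d) : ‖co e p‖ ≤ ‖p‖ := norm_le_pi_norm p e

private theorem co_sub (e : Fin d) (p q : Vd d) : co e (p - q) = co e p - co e q := rfl

private theorem exists_co (p : Vd d) (hp : 0 < ‖p‖) : ∃ e, ‖co e p‖ = ‖p‖ := by
  by_contra hcon
  push Not at hcon
  have h1 : ∀ e, ‖p e‖ < ‖p‖ := fun e => lt_of_le_of_ne (norm_le_pi_norm p e) (hcon e)
  exact lt_irrefl _ ((pi_norm_lt_iff hp).2 h1)

private theorem deriv_co (e : Fin d) {p : ℂ → Vd d} {w : ℂ} (hp : DifferentiableAt ℂ p w) :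
    deriv (fun w => co e (p w)) w = co e (deriv p w) := by
  have h1 : HasDerivAt (fun w => coL e (p w)) (coL e (deriv p w)) w :=
    (coL e).hasFDerivAt.comp_hasDerivAt w hp.hasDerivAt
  simp only [coL_apply] at h1
  exact h1.deriv

private theorem differentiableAt_co (e : Fin d) {p : ℂ → Vd d} {w : ℂ}
    (hp : DifferentiableAt ℂ p w) : DifferentiableAt ℂ (fun w => co e (p w)) w := by
  have h1 : HasDerivAt (fun w => coL e (p w)) (coL e (deriv p w)) w :=
    (coL e).hasFDerivAt.comp_hasDerivAt w hp.hasDerivAt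
  simp only [coL_apply] at h1
  exact h1.differentiableAt

/-- a coordinate which is an embedding near `w₀` -/
private theorem exists_coord {A : Atlas d X} {c L r₀ c₁ K₀ : ℝ} (H : LC A c L r₀ c₁ K₀)
    {F : ℂ → EN N} (hF : F ∈ BC X c L) {i : Fin A.n} {w₀ : ℂ}
    (hg : ∀ w ∈ ball w₀ r₀, Good (A.χ i) (F w)) :
    ∃ e, c₁ ≤ ‖deriv (fun w => co e (qc A i F w)) w₀‖ ∧
      (∀ w ∈ ball w₀ r₀, deriv (fun w => co e (qc A i F w)) w = co e (deriv (qc A i F) w)) ∧
      DifferentiableOn ℂ (fun w => co e (qc A i F w)) (ball w₀ r₀) ∧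
      ∀ w ∈ ball w₀ (r₀ / 2), ‖deriv (fun w => co e (qc A i F w)) w -
        deriv (fun w => co e (qc A i F w)) w₀‖ ≤ K₀ * ‖w - w₀‖ := by
  have hr := H.r₀_pos
  have hw₀ : w₀ ∈ ball w₀ r₀ := mem_ball_self hr
  have hd : ∀ w ∈ ball w₀ r₀, DifferentiableAt ℂ (qc A i F) w := fun w hw =>
    (H.an F hF i w (hg w hw)).differentiableAt
  obtain ⟨e, he⟩ := exists_co (deriv (qc A i F) w₀) (lt_of_lt_of_le H.c₁_pos (H.der_ge F hF i w₀ (hg w₀ hw₀)))
  refine ⟨e, ?_, fun w hw => deriv_co e (hd w hw), fun w hw =>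
    (differentiableAt_co e (hd w hw)).differentiableWithinAt, fun w hw => ?_⟩
  · rw [deriv_co e (hd w₀ hw₀), he]
    exact H.der_ge F hF i w₀ (hg w₀ hw₀)
  · have hw' : w ∈ ball w₀ r₀ := ball_subset_ball (by linarith) hw
    rw [deriv_co e (hd w hw'), deriv_co e (hd w₀ hw₀), ← co_sub]
    refine (norm_co_le e _).trans (H.der_lip F hF i w₀ hg w hw w₀ (mem_ball_self (by linarith)))

theorem exists_MC (hX : IsCone X) (A : Atlas d X) {c L : ℝ} (hc : 0 < c) (hL : 0 < L) :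
    ∃ r₀ c₁ K₀ r₂ r₃ ε₃ K : ℝ, MC A c L r₀ c₁ K₀ r₂ r₃ ε₃ K := by
  obtain ⟨r₀, c₁, K₀, H⟩ := exists_LC hX A hc hL
  have hr₀ := H.r₀_pos
  have hc₁ := H.c₁_pos
  have hK₀ : 0 < K₀ := lt_of_lt_of_le one_pos H.one_le
  have hC : 0 < A.C := lt_of_lt_of_le one_pos A.one_le
  have hδ := A.δ_pos
  obtain ⟨r₂, hr₂⟩ : ∃ r₂, r₂ = min (r₀ / 32) (c₁ / (64 * K₀)) := ⟨_, rfl⟩
  have hr₂_pos : 0 < r₂ := by
    rw [hr₂]
    exact lt_min (by positivity) (by positivity)
  have hr₂_le : 32 * r₂ ≤ r₀ := by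
    have := min_le_left (r₀ / 32) (c₁ / (64 * K₀))
    rw [← hr₂] at this
    linarith
  have hr₂_le' : K₀ * (64 * r₂) ≤ c₁ := by
    have h1 := min_le_right (r₀ / 32) (c₁ / (64 * K₀))
    rw [← hr₂, le_div_iff₀ (by positivity)] at h1
    linarith
  obtain ⟨r₃, hr₃⟩ : ∃ r₃, r₃ = min r₂ (c₁ * r₂ / (64 * K₀)) := ⟨_, rfl⟩
  have hr₃_pos : 0 < r₃ := by
    rw [hr₃]
    exact lt_min hr₂_pos (by positivity)
  have hr₃_le : r₃ ≤ r₂ := by
    rw [hr₃]
    exact min_le_left _ _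
  have hr₃_le' : K₀ * (64 * r₃) ≤ c₁ * r₂ := by
    have h1 := min_le_right r₂ (c₁ * r₂ / (64 * K₀))
    rw [← hr₃, le_div_iff₀ (by positivity)] at h1
    linarith
  obtain ⟨ε₃, hε₃⟩ : ∃ ε₃, ε₃ = min (A.δ / 2) (c₁ * r₂ / (32 * A.C)) := ⟨_, rfl⟩
  have hε₃_pos : 0 < ε₃ := by
    rw [hε₃]
    exact lt_min (by positivity) (by positivity)
  have hε₃_le : ε₃ ≤ A.δ / 2 := by
    rw [hε₃]
    exact min_le_left _ _
  have hε₃_le' : A.C * (32 * ε₃) ≤ c₁ * r₂ := by
    have h1 := min_le_right (A.δ / 2) (c₁ * r₂ / (32 * A.C))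
    rw [← hε₃, le_div_iff₀ (by positivity)] at h1
    linarith
  have hK_C : 2 * A.C / c₁ ≤ max K₀ (2 * A.C / c₁) := le_max_right _ _
  have hK_pos : 0 < max K₀ (2 * A.C / c₁) := lt_of_lt_of_le hK₀ (le_max_left _ _)
  have hmul : ∀ t : ℝ, 0 ≤ t → (2 * A.C / c₁) * t ≤ max K₀ (2 * A.C / c₁) * t := fun t ht =>
    mul_le_mul_of_nonneg_right hK_C ht
  refine ⟨r₀, c₁, K₀, r₂, r₃, ε₃, max K₀ (2 * A.C / c₁), ⟨H, hr₂_pos, hr₃_pos, hε₃_pos,
    le_max_left _ _, by linarith, by linarith, hr₃_le, ?_, ?_⟩⟩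
  · intro F hF z w hzw
    have hFX : ∀ z, F z ∈ X := hF.2.1
    have hg : ∀ w ∈ ball z r₀, Good (A.χ (A.idx (pr (F z)))) (F w) :=
      H.good F hF (F z) (hFX z) z (by rw [dist_self]; positivity)
    obtain ⟨e, h0, -, hdiff, hlip⟩ := exists_coord H hF hg
    have hinv := (exists_inv (u := fun w => co e (qc A (A.idx (pr (F z))) F w)) (w₀ := z)
      (r := 8 * r₂) (a := c₁) (by positivity) hc₁
      (hdiff.mono (ball_subset_ball (by linarith))) h0 ?_).1
    · have hw : w ∈ ball z (8 * r₂) := by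
        rw [mem_ball, dist_comm, dist_eq_norm]
        linarith
      have hz : z ∈ ball z (8 * r₂) := mem_ball_self (by positivity)
      have h1 := hinv z hz w hw
      have h2 : ‖co e (qc A (A.idx (pr (F z))) F z) - co e (qc A (A.idx (pr (F z))) F w)‖ ≤
          A.C * dist (pr (F z)) (pr (F w)) := by
        rw [← co_sub]
        exact (norm_co_le e _).trans (A.le_dist _ _ _ (hg z (mem_ball_self hr₀))
          (hg w (ball_subset_ball (by linarith) hw)))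
      rw [inv_mul_le_iff₀ hK_pos]
      refine le_trans ?_ (hmul _ dist_nonneg)
      rw [div_mul_eq_mul_div, le_div_iff₀ hc₁]
      have h3 := h1.trans h2
      linarith
    · intro w hw
      have hw' : w ∈ ball z (r₀ / 2) := ball_subset_ball (by linarith) hw
      refine (hlip w hw').trans ?_
      rw [mem_ball, dist_eq_norm] at hw
      have h1 : K₀ * ‖w - z‖ ≤ K₀ * (8 * r₂) := mul_le_mul_of_nonneg_left hw.le hK₀.le
      linarith
  · intro F hF G hG w₀ z₀ hdist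
    have hFX : ∀ z, F z ∈ X := hF.2.1
    have hGX : ∀ z, G z ∈ X := hG.2.1
    obtain ⟨i, hi⟩ : ∃ i, i = A.idx (pr (F w₀)) := ⟨_, rfl⟩
    have hgF : ∀ w ∈ ball w₀ r₀, Good (A.χ i) (F w) := by
      rw [hi]
      exact H.good F hF (F w₀) (hFX w₀) w₀ (by rw [dist_self]; positivity)
    have hgG : ∀ z ∈ ball z₀ r₀, Good (A.χ i) (G z) := by
      rw [hi]
      exact H.good G hG (F w₀) (hFX w₀) z₀ (by rw [dist_comm]; linarith)
    rw [← hi]
    obtain ⟨e, h0, hder, hdiff, hlip⟩ := exists_coord H hF hgF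
    have hlip8 : ∀ w ∈ ball w₀ (8 * r₂), ‖deriv (fun w => co e (qc A i F w)) w -
        deriv (fun w => co e (qc A i F w)) w₀‖ ≤ c₁ / 4 := by
      intro w hw
      have hw' : w ∈ ball w₀ (r₀ / 2) := ball_subset_ball (by linarith) hw
      refine (hlip w hw').trans ?_
      rw [mem_ball, dist_eq_norm] at hw
      have h1 : K₀ * ‖w - w₀‖ ≤ K₀ * (8 * r₂) := mul_le_mul_of_nonneg_left hw.le hK₀.le
      linarith
    have hemb := (exists_inv (u := fun w => co e (qc A i F w)) (w₀ := w₀)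
      (r := 8 * r₂) (a := c₁) (by positivity) hc₁
      (hdiff.mono (ball_subset_ball (by linarith))) h0 hlip8).1
    obtain ⟨ξ, hξd, hξ⟩ := (exists_inv (u := fun w => co e (qc A i F w)) (w₀ := w₀)
      (r := r₂) (a := c₁) hr₂_pos hc₁
      (hdiff.mono (ball_subset_ball (by linarith))) h0
      (fun w hw => hlip8 w (ball_subset_ball (by linarith) hw))).2
    have hdG : ∀ z ∈ ball z₀ r₀, DifferentiableAt ℂ (qc A i G) z := fun z hz =>
      (H.an G hG i z (hgG z hz)).differentiableAt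
    have hclose : ∀ z ∈ ball z₀ (2 * r₃), co e (qc A i G z) ∈
        ball (co e (qc A i F w₀)) (c₁ * r₂ / 4) := by
      intro z hz
      have hsub : ball z₀ (2 * r₃) ⊆ ball z₀ r₀ := ball_subset_ball (by linarith)
      have h1 : ‖qc A i G z - qc A i G z₀‖ ≤ K₀ * ‖z - z₀‖ :=
        (convex_ball z₀ (2 * r₃)).norm_image_sub_le_of_norm_deriv_le
          (fun w hw => hdG w (hsub hw)) (fun w hw => H.der_le G hG i w (hgG w (hsub hw)))
          (mem_ball_self (by positivity)) hz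
      have h2 : ‖qc A i G z₀ - qc A i F w₀‖ ≤ A.C * ε₃ :=
        (A.le_dist i _ _ (hgG z₀ (mem_ball_self hr₀)) (hgF w₀ (mem_ball_self hr₀))).trans
          (mul_le_mul_of_nonneg_left hdist hC.le)
      rw [mem_ball, dist_eq_norm] at hz
      have h3 : K₀ * ‖z - z₀‖ ≤ K₀ * (2 * r₃) := mul_le_mul_of_nonneg_left hz.le hK₀.le
      rw [mem_ball, dist_eq_norm, ← co_sub]
      refine lt_of_le_of_lt (norm_co_le e _) ?_
      have h4 : ‖qc A i G z - qc A i F w₀‖ ≤ ‖qc A i G z - qc A i G z₀‖ +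
          ‖qc A i G z₀ - qc A i F w₀‖ := norm_sub_le_norm_sub_add_norm_sub _ _ _
      have h5 : 0 < c₁ * r₂ := by positivity
      linarith
    refine ⟨e, fun z => ξ (co e (qc A i G z)), ⟨?_, ?_, ?_, ?_, ?_, ?_, ?_⟩⟩
    · intro z hz
      have h1 : DifferentiableAt ℂ ξ (co e (qc A i G z)) :=
        (hξd _ (hclose z hz)).differentiableAt (isOpen_ball.mem_nhds (hclose z hz))
      have h2 : DifferentiableAt ℂ (fun z => co e (qc A i G z)) z :=
        differentiableAt_co e (hdG z (ball_subset_ball (by linarith) hz))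
      exact (h1.comp z h2).differentiableWithinAt
    · intro z hz
      exact ball_subset_closedBall (hξ _ (hclose z hz)).1
    · intro z hz
      exact (hξ _ (hclose z hz)).2
    · intro w hw
      exact hgF w (closedBall_subset_ball (by linarith) hw)
    · intro z hz
      exact hgG z (ball_subset_ball (by linarith) hz)
    · intro z hz w hw
      have h1 := hemb w (closedBall_subset_ball (by linarith) hw) (ξ (co e (qc A i G z)))
        (ball_subset_ball (by linarith) (hξ _ (hclose z hz)).1)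
      have h2 := (hξ _ (hclose z hz)).2
      rw [h2, ← co_sub] at h1
      have h3 := h1.trans (norm_co_le e _)
      refine le_trans ?_ (hmul _ (norm_nonneg _))
      rw [div_mul_eq_mul_div, le_div_iff₀ hc₁]
      have h4 : 1 * ‖qc A i F w - qc A i G z‖ ≤ A.C * ‖qc A i F w - qc A i G z‖ :=
        mul_le_mul_of_nonneg_right A.one_le (norm_nonneg _)
      linarith
    · intro w hw
      have hw8 : w ∈ ball w₀ (8 * r₂) := closedBall_subset_ball (by linarith) hw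
      have hwr : w ∈ ball w₀ r₀ := ball_subset_ball (by linarith) hw8
      have h1 := hlip8 w hw8
      have h2 : c₁ / 2 ≤ ‖co e (deriv (qc A i F) w)‖ := by
        rw [← hder w hwr]
        have h3 := norm_sub_norm_le (deriv (fun w => co e (qc A i F w)) w₀)
          (deriv (fun w => co e (qc A i F w)) w)
        rw [norm_sub_rev] at h3
        linarith
      change 1 ≤ _ * ‖co e (deriv (qc A i F) w)‖
      refine le_trans ?_ (hmul _ (norm_nonneg _))
      rw [div_mul_eq_mul_div, le_div_iff₀ hc₁]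
      have h4 : 2 * A.C * (c₁ / 2) ≤ 2 * A.C * ‖co e (deriv (qc A i F) w)‖ :=
        mul_le_mul_of_nonneg_left h2 (by positivity)
      have h5 : 1 * c₁ ≤ A.C * c₁ := mul_le_mul_of_nonneg_right A.one_le hc₁.le
      linarith

end Pool.Agent.AD.BD
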