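import Pool.Agent.AD.BD.Defs

/-!
# AD BD NnA: the length of the forms

* `Nn_add_smul`, `Nn_smul`, `Nn_pos`, `Nn_cont`, `Nn_trans`: properties of `Nn`.
* `Nn_cmp`: comparison on the compact set of the pairs `(u, g)` with `u e = 0`, `‖g e‖ ≥ 1 / K'`.
-/

set_option autoImplicit false

open Topology Filter Metric

namespace Pool.Agent.AD.BD

open Pool.Agent.H36.BP (EN fs wd)
open Pool.Agent.H14.PP (IsCone CurveAt Tan IsOpenPart)
open Pool.Agent.H62.EF (MN pr)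
open Pool.Agent.H5.BD (BC evp)

variable {N d : ℕ} {X : Set (EN N)} {m K : ℕ}

private theorem openX (hX : IsCone X) : IsOpenPart X X :=
  ⟨subset_rfl, hX.smul_mem, fun _ _ => Eventually.of_forall fun _ hy => hy⟩

theorem tan_fderiv (hX : IsCone X) (χ : Chart d X) {p : Vd d} (hp : p ∈ ball (0 : Vd d) 2) (w : Vd d) : Tan X (χ.σ p) (fderiv ℂ χ.σ p w) :=
  χ.tan (openX hX) hp (χ.σ_mem p hp).1 w

theorem Nn_nonneg (Ω : Fin K → BForm d X m) (χ : Chart d X) (p u w : Vd d) : 0 ≤ Nn Ω χ p u w := by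
  unfold Nn
  exact mul_nonneg (Finset.sum_nonneg fun k _ => norm_nonneg _) (norm_nonneg _)

theorem Nn_add_smul (hX : IsCone X) (Ω : Fin K → BForm d X m) (χ : Chart d X) {p : Vd d} (hp : p ∈ ball (0 : Vd d) 2) (u w : Vd d) (t : ℂ) :
    Nn Ω χ p (u + t • w) w = Nn Ω χ p u w := by
  unfold Nn
  congr 1
  refine Finset.sum_congr rfl fun k _ => ?_
  have h1 := (Ω k).det (χ.σ p) (χ.σ_mem p hp).1 _ _ (tan_fderiv hX χ hp u) (tan_fderiv hX χ hp w) 1 t 0 1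
  rw [one_smul, zero_smul, zero_add, one_smul, mul_zero, sub_zero, mul_one, one_pow, one_mul] at h1
  rw [map_add, map_smul, h1]

theorem Nn_smul (hX : IsCone X) (Ω : Fin K → BForm d X m) (χ : Chart d X) {p : Vd d} (hp : p ∈ ball (0 : Vd d) 2) (u w : Vd d) (t : ℂ) :
    Nn Ω χ p (t • u) w = ‖t‖ ^ m * Nn Ω χ p u w := by
  unfold Nn
  rw [← mul_assoc, Finset.mul_sum]
  congr 1
  refine Finset.sum_congr rfl fun k _ => ?_
  have h1 := (Ω k).det (χ.σ p) (χ.σ_mem p hp).1 _ _ (tan_fderiv hX χ hp u) (tan_fderiv hX χ hp w) t 0 0 1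
  rw [zero_smul, add_zero, zero_smul, zero_add, one_smul, mul_zero, sub_zero, mul_one] at h1
  rw [map_smul, h1, norm_mul, norm_pow]

theorem Nn_pos (hX : IsCone X) (Ω : Fin K → BForm d X m) (hΩ : NoZero Ω) (χ : Chart d X) {p : Vd d} (hp : p ∈ ball (0 : Vd d) 2) {u w : Vd d}
    (h : LinearIndependent ℂ ![u, w]) : 0 < Nn Ω χ p u w := by
  have hσ0 : χ.σ p ≠ 0 := χ.sigma_ne_zero hX hp
  have hind : LinearIndependent ℂ ![χ.σ p, fderiv ℂ χ.σ p u, fderiv ℂ χ.σ p w] := by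
    rw [LinearIndependent.pair_iff] at h
    rw [Fintype.linearIndependent_iff]
    intro g hg
    rw [Fin.sum_univ_three] at hg
    change g 0 • χ.σ p + g 1 • fderiv ℂ χ.σ p u + g 2 • fderiv ℂ χ.σ p w = 0 at hg
    have h1 := congrArg (fderiv ℂ χ.q (χ.σ p)) hg
    rw [map_add, map_add, map_smul, map_smul, map_smul, χ.fderiv_q_self (χ.σ_mem p hp).2.1, χ.fderiv_sigma hp, χ.fderiv_sigma hp, smul_zero,
      zero_add, map_zero] at h1
    obtain ⟨h2, h3⟩ := h _ _ h1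
    rw [h2, h3, zero_smul, zero_smul, add_zero, add_zero] at hg
    have h4 : g 0 = 0 := (smul_eq_zero.1 hg).resolve_right hσ0
    intro i
    fin_cases i
    · exact h4
    · exact h2
    · exact h3
  obtain ⟨k, hk⟩ := hΩ (χ.σ p) (χ.σ_mem p hp).1 _ _ (tan_fderiv hX χ hp u) (tan_fderiv hX χ hp w) hind
  unfold Nn
  refine mul_pos ?_ (norm_pos_iff.2 hσ0)
  exact Finset.sum_pos' (fun k _ => norm_nonneg _) ⟨k, Finset.mem_univ k, norm_pos_iff.2 hk⟩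

theorem Nn_an (Ω : Fin K → BForm d X m) (χ : Chart d X) {p : Vd d} (hp : p ∈ ball (0 : Vd d) 2) (u w : Vd d) (k : Fin K) :
    AnalyticAt ℂ (fun y : Vd d × Vd d × Vd d => (Ω k).toFun (χ.σ y.1) (fderiv ℂ χ.σ y.1 y.2.1) (fderiv ℂ χ.σ y.1 y.2.2)) (p, u, w) := by
  refine (Ω k).analytic χ.σ p u w (χ.σ_an p hp) ?_
  filter_upwards [isOpen_ball.mem_nhds hp] with y hy
  exact (χ.σ_mem y hy).1

theorem Nn_cont (Ω : Fin K → BForm d X m) (χ : Chart d X) {p : Vd d} (hp : p ∈ ball (0 : Vd d) 2) (u w : Vd d) :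
    ContinuousAt (fun y : Vd d × Vd d × Vd d => Nn Ω χ y.1 y.2.1 y.2.2) (p, u, w) := by
  unfold Nn
  refine ContinuousAt.mul ?_ ?_
  · have h1 : ∀ k : Fin K, ContinuousAt (fun y : Vd d × Vd d × Vd d =>
        ‖(Ω k).toFun (χ.σ y.1) (fderiv ℂ χ.σ y.1 y.2.1) (fderiv ℂ χ.σ y.1 y.2.2)‖) (p, u, w) := fun k => (Nn_an Ω χ hp u w k).continuousAt.norm
    exact tendsto_finsetSum _ fun k _ => h1 k
  · have h1 : ContinuousAt χ.σ ((p, u, w) : Vd d × Vd d × Vd d).1 := (χ.σ_an p hp).continuousAt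
    exact (h1.comp continuousAt_fst).norm

/-- The lift: `χ.σ y = c y • χ'.σ (τ y)` near `p`, with `c` differentiable at `p`. -/
private theorem lift (hX : IsCone X) (χ χ' : Chart d X) {p : Vd d}
    (hp : p ∈ ball (0 : Vd d) 2) (hU : χ.σ p ∈ χ'.U) :
    ∃ (c : ℂ) (c' : Vd d →L[ℂ] ℂ), c ≠ 0 ∧ χ'.q (χ.σ p) ∈ ball (0 : Vd d) 2 ∧
      χ.σ p = c • χ'.σ (χ'.q (χ.σ p)) ∧
      ∀ w : Vd d, fderiv ℂ χ.σ p w =
        c • fderiv ℂ χ'.σ (χ'.q (χ.σ p)) (fderiv ℂ (fun y => χ'.q (χ.σ y)) p w) +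
          c' w • χ'.σ (χ'.q (χ.σ p)) := by
  obtain ⟨hτ, c0, hc0, hx⟩ := χ'.surj (χ.σ p) (χ.σ_mem p hp).1 hU
  set x' : EN N := χ'.σ (χ'.q (χ.σ p)) with hx'
  have hx'0 : x' ≠ 0 := χ'.sigma_ne_zero hX hτ
  have hin : inner ℂ x' x' ≠ 0 := by
    rw [Ne, inner_self_eq_zero]
    exact hx'0
  have hτan : AnalyticAt ℂ (fun y => χ'.q (χ.σ y)) p :=
    AnalyticAt.comp (g := χ'.q) (f := χ.σ) (χ'.q_an _ hU) (χ.σ_an p hp)
  have hσ'an : AnalyticAt ℂ (fun y => χ'.σ (χ'.q (χ.σ y))) p :=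
    AnalyticAt.comp (g := χ'.σ) (f := fun y => χ'.q (χ.σ y)) (χ'.σ_an _ hτ) hτan
  have hnum : AnalyticAt ℂ (fun y => innerSL ℂ x' (χ.σ y)) p :=
    AnalyticAt.comp (g := fun v => innerSL ℂ x' v) (f := χ.σ)
      ((innerSL ℂ x').analyticAt _) (χ.σ_an p hp)
  have hden : AnalyticAt ℂ (fun y => innerSL ℂ x' (χ'.σ (χ'.q (χ.σ y)))) p :=
    AnalyticAt.comp (g := fun v => innerSL ℂ x' v) (f := fun y => χ'.σ (χ'.q (χ.σ y)))
      ((innerSL ℂ x').analyticAt _) hσ'an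
  have hden0 : innerSL ℂ x' (χ'.σ (χ'.q (χ.σ p))) ≠ 0 := by
    rw [← hx', innerSL_apply_apply]
    exact hin
  let C : Vd d → ℂ := fun y => innerSL ℂ x' (χ.σ y) / innerSL ℂ x' (χ'.σ (χ'.q (χ.σ y)))
  have hC : AnalyticAt ℂ C p := hnum.div hden hden0
  have hCp : C p = c0 := by
    show innerSL ℂ x' (χ.σ p) / innerSL ℂ x' (χ'.σ (χ'.q (χ.σ p))) = c0
    rw [div_eq_iff hden0]
    conv_lhs => rw [hx]
    rw [map_smul, smul_eq_mul]
  have hev : ∀ᶠ y in 𝓝 p, χ.σ y = C y • χ'.σ (χ'.q (χ.σ y)) := by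
    have h1 : ∀ᶠ y in 𝓝 p, y ∈ ball (0 : Vd d) 2 := isOpen_ball.mem_nhds hp
    have h2 : ∀ᶠ y in 𝓝 p, χ.σ y ∈ χ'.U :=
      (χ.σ_an p hp).continuousAt.eventually (χ'.isOpen_U.mem_nhds hU)
    have h3 : ∀ᶠ y in 𝓝 p, innerSL ℂ x' (χ'.σ (χ'.q (χ.σ y))) ≠ 0 :=
      hden.continuousAt.eventually_ne hden0
    filter_upwards [h1, h2, h3] with y hy1 hy2 hy3
    obtain ⟨-, b, hb, hxb⟩ := χ'.surj (χ.σ y) (χ.σ_mem y hy1).1 hy2
    have h4 : C y = b := by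
      show innerSL ℂ x' (χ.σ y) / innerSL ℂ x' (χ'.σ (χ'.q (χ.σ y))) = b
      rw [div_eq_iff hy3]
      conv_lhs => rw [hxb]
      rw [map_smul, smul_eq_mul]
    rw [h4]
    exact hxb
  refine ⟨c0, fderiv ℂ C p, hc0, hτ, hx, fun w => ?_⟩
  have hD1 : HasFDerivAt (fun y => χ'.σ (χ'.q (χ.σ y)))
      ((fderiv ℂ χ'.σ (χ'.q (χ.σ p))).comp (fderiv ℂ (fun y => χ'.q (χ.σ y)) p)) p :=
    HasFDerivAt.comp (g := χ'.σ) (f := fun y => χ'.q (χ.σ y)) p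
      (χ'.σ_an _ hτ).differentiableAt.hasFDerivAt hτan.differentiableAt.hasFDerivAt
  have hD2 : HasFDerivAt (fun y => C y • χ'.σ (χ'.q (χ.σ y)))
      (C p • ((fderiv ℂ χ'.σ (χ'.q (χ.σ p))).comp (fderiv ℂ (fun y => χ'.q (χ.σ y)) p)) +
        (fderiv ℂ C p).smulRight (χ'.σ (χ'.q (χ.σ p)))) p :=
    hC.differentiableAt.hasFDerivAt.smul hD1
  have hD3 : HasFDerivAt χ.σ
      (C p • ((fderiv ℂ χ'.σ (χ'.q (χ.σ p))).comp (fderiv ℂ (fun y => χ'.q (χ.σ y)) p)) +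
        (fderiv ℂ C p).smulRight (χ'.σ (χ'.q (χ.σ p)))) p :=
    hD2.congr_of_eventuallyEq hev
  rw [hD3.fderiv, hCp]
  rfl

private theorem tan_smul (hX : IsCone X) {x v : EN N} (h : Tan X x v) {c : ℂ}
    (hc : c ≠ 0) : Tan X (c • x) (c • v) := by
  obtain ⟨F, hF, hF0, hFd⟩ := h
  refine ⟨fun z => c • F z, ⟨AnalyticAt.fun_smul analyticAt_const hF.1, ?_⟩, ?_, ?_⟩
  · filter_upwards [hF.2] with z hz
    exact hX.smul_mem _ hz c hc
  · show c • F 0 = c • x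
    rw [hF0]
  · have h1 : HasDerivAt (fun z => c • F z) (c • deriv F 0) 0 :=
      hF.1.differentiableAt.hasDerivAt.const_smul c
    rw [h1.deriv, hFd]

theorem Nn_trans (hX : IsCone X) (Ω : Fin K → BForm d X m) (χ χ' : Chart d X) {p : Vd d} (hp : p ∈ ball (0 : Vd d) 2) (hU : χ.σ p ∈ χ'.U) (u w : Vd d) :
    Nn Ω χ p u w = Nn Ω χ' (χ'.q (χ.σ p)) (fderiv ℂ (fun y => χ'.q (χ.σ y)) p u) (fderiv ℂ (fun y => χ'.q (χ.σ y)) p w) := by
  obtain ⟨c, c', hc, hτ, hx, hD⟩ := lift hX χ χ' hp hU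
  have hx'X : χ'.σ (χ'.q (χ.σ p)) ∈ X := (χ'.σ_mem _ hτ).1
  have hcn : 0 < ‖c‖ := norm_pos_iff.2 hc
  have key : ∀ k, ‖(Ω k).toFun (χ.σ p) (fderiv ℂ χ.σ p u) (fderiv ℂ χ.σ p w)‖ * ‖c‖ =
      ‖(Ω k).toFun (χ'.σ (χ'.q (χ.σ p))) (fderiv ℂ χ'.σ (χ'.q (χ.σ p)) (fderiv ℂ (fun y => χ'.q (χ.σ y)) p u))
        (fderiv ℂ χ'.σ (χ'.q (χ.σ p)) (fderiv ℂ (fun y => χ'.q (χ.σ y)) p w))‖ := by
    intro k
    have t1 := tan_fderiv hX χ' hτ (fderiv ℂ (fun y => χ'.q (χ.σ y)) p u)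
    have t2 := tan_fderiv hX χ' hτ (fderiv ℂ (fun y => χ'.q (χ.σ y)) p w)
    have h1 := (Ω k).scale _ hx'X _ _ t1 t2 c hc
    rw [← h1, norm_mul, mul_comm]
    congr 2
    have h2 := (Ω k).add_smul (c • χ'.σ (χ'.q (χ.σ p))) (hX.smul_mem _ hx'X c hc) _ _ (tan_smul hX t1 hc) (tan_smul hX t2 hc)
      (c' u * c⁻¹) (c' w * c⁻¹)
    have h3 : ∀ v, fderiv ℂ χ.σ p v = c • fderiv ℂ χ'.σ (χ'.q (χ.σ p)) (fderiv ℂ (fun y => χ'.q (χ.σ y)) p v) +
        (c' v * c⁻¹) • c • χ'.σ (χ'.q (χ.σ p)) := by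
      intro v
      rw [hD v, smul_smul, mul_assoc, inv_mul_cancel₀ hc, mul_one]
    rw [← h3, ← h3, ← hx] at h2
    rw [h2, ← hx]
  have hn : ‖χ.σ p‖ = ‖c‖ * ‖χ'.σ (χ'.q (χ.σ p))‖ := by
    conv_lhs => rw [hx]
    rw [norm_smul]
  unfold Nn
  rw [hn, ← mul_assoc, Finset.sum_mul]
  congr 1
  exact Finset.sum_congr rfl fun k _ => key k

/-- the transition formula at a point which is good for both charts -/
theorem Nn_good (hX : IsCone X) (Ω : Fin K → BForm d X m) (χ χ' : Chart d X) {x : EN N} (hx : Good χ x) (hx' : Good χ' x) (u w : Vd d) :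
    Nn Ω χ' (χ'.q x) (fderiv ℂ (fun y => χ'.q (χ.σ y)) (χ.q x) u) (fderiv ℂ (fun y => χ'.q (χ.σ y)) (χ.q x) w) = Nn Ω χ (χ.q x) u w := by
  obtain ⟨hb, a, ha, hxa⟩ := χ.surj x hx.1 hx.2.1
  have hσ : χ.σ (χ.q x) = a⁻¹ • x := by
    conv_rhs => rw [hxa]
    rw [smul_smul, inv_mul_cancel₀ ha, one_smul]
  have hU : χ.σ (χ.q x) ∈ χ'.U := by
    rw [hσ]
    exact χ'.smul_U x hx'.2.1 _ (inv_ne_zero ha)
  have hq : χ'.q (χ.σ (χ.q x)) = χ'.q x := by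
    rw [hσ, χ'.q_smul x hx'.2.1 _ (inv_ne_zero ha)]
  rw [Nn_trans hX Ω χ χ' hb hU u w, hq]

private theorem half_mem {p : Vd d} (hp : ‖p‖ ≤ 1 / 2) : p ∈ ball (0 : Vd d) 2 := by
  rw [mem_ball_zero_iff]
  exact hp.trans_lt (by norm_num)

theorem Nn_bdd (Ω : Fin K → BForm d X m) (χ : Chart d X) (R : ℝ) :
    ∃ B : ℝ, 0 ≤ B ∧ ∀ p u w : Vd d, ‖p‖ ≤ 1 / 2 → ‖u‖ ≤ R → ‖w‖ ≤ R → Nn Ω χ p u w ≤ B := by
  have hcomp : IsCompact (closedBall (0 : Vd d) (1 / 2) ×ˢ (closedBall (0 : Vd d) R ×ˢ closedBall (0 : Vd d) R)) :=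
    (isCompact_closedBall _ _).prod ((isCompact_closedBall _ _).prod (isCompact_closedBall _ _))
  have hc : ContinuousOn (fun y : Vd d × Vd d × Vd d => Nn Ω χ y.1 y.2.1 y.2.2)
      (closedBall (0 : Vd d) (1 / 2) ×ˢ (closedBall (0 : Vd d) R ×ˢ closedBall (0 : Vd d) R)) := by
    rintro ⟨p, u, w⟩ hy
    exact (Nn_cont Ω χ (half_mem (mem_closedBall_zero_iff.1 hy.1)) u w).continuousWithinAt
  obtain ⟨b, hb⟩ := hcomp.exists_bound_of_continuousOn hc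
  refine ⟨max b 0, le_max_right _ _, fun p u w hp hu hw => ?_⟩
  have h1 := hb (p, u, w) ⟨mem_closedBall_zero_iff.2 hp, mem_closedBall_zero_iff.2 hu, mem_closedBall_zero_iff.2 hw⟩
  exact ((le_abs_self _).trans h1).trans (le_max_left _ _)

private theorem num {η a D c : ℝ} (hD : c ≤ D) (hη : 0 < η) (h : |a - D| ≤ (1 - Real.exp (-η)) * c) :
    Real.exp (-η) * D ≤ a ∧ a ≤ Real.exp η * D := by
  have h0 : 0 < 1 - Real.exp (-η) := by
    have : Real.exp (-η) < 1 := by rw [Real.exp_lt_one_iff]; linarith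
    linarith
  have hc0 : 0 ≤ c := by
    by_contra hcon
    push Not at hcon
    have := (abs_nonneg (a - D)).trans h
    nlinarith
  have hD0 : 0 ≤ D := hc0.trans hD
  have h1 : (1 - Real.exp (-η)) * c ≤ (1 - Real.exp (-η)) * D := mul_le_mul_of_nonneg_left hD h0.le
  have h2 := abs_le.1 (h.trans h1)
  have h3 : 2 ≤ Real.exp η + Real.exp (-η) := by
    have h4 : Real.exp η * Real.exp (-η) = 1 := by rw [← Real.exp_add, add_neg_cancel, Real.exp_zero]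
    nlinarith [sq_nonneg (Real.exp η - Real.exp (-η)), Real.exp_pos η, Real.exp_pos (-η), sq_nonneg (Real.exp η + Real.exp (-η) - 2),
      sq_nonneg (Real.exp η - 1), sq_nonneg (Real.exp (-η) - 1)]
  constructor
  · linarith [h2.1]
  · nlinarith [h2.2]

private theorem indep {u g : Vd d} {e : Fin d} (hu : u ≠ 0) (hue : u e = 0) (hge : g e ≠ 0) : LinearIndependent ℂ ![u, g] := by
  rw [LinearIndependent.pair_iff]
  intro a b hab
  have h1 := congrFun hab e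
  rw [Pi.add_apply, Pi.smul_apply, Pi.smul_apply, hue, smul_zero, zero_add, smul_eq_mul, Pi.zero_apply] at h1
  have hb : b = 0 := (mul_eq_zero.1 h1).resolve_right hge
  rw [hb, zero_smul, add_zero] at hab
  exact ⟨(smul_eq_zero.1 hab).resolve_right hu, hb⟩

theorem Nn_cmp (hX : IsCone X) (hm : 1 ≤ m) (Ω : Fin K → BForm d X m) (hΩ : NoZero Ω) (χ : Chart d X) {K' : ℝ} {η : ℝ} (hη : 0 < η) :
    ∃ δ c : ℝ, 0 < δ ∧ 0 < c ∧ ∀ (e : Fin d) (p u g err : Vd d), ‖p‖ ≤ 1 / 2 → u e = 0 → 1 ≤ K' * ‖g e‖ → ‖g‖ ≤ K' → ‖err‖ ≤ δ * ‖u‖ →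
      Real.exp (-η) * Nn Ω χ p u g ≤ Nn Ω χ p (u + err) g ∧ Nn Ω χ p (u + err) g ≤ Real.exp η * Nn Ω χ p u g ∧
        c * ‖u‖ ^ m ≤ Nn Ω χ p u g := by
  let f : Vd d × Vd d × Vd d → ℝ := fun y => Nn Ω χ y.1 y.2.1 y.2.2
  let S : Fin d → Set (Vd d × Vd d × Vd d) := fun e =>
    (closedBall (0 : Vd d) (1 / 2) ×ˢ (sphere (0 : Vd d) 1 ×ˢ closedBall (0 : Vd d) K')) ∩ {y | y.2.1 e = 0 ∧ 1 ≤ K' * ‖y.2.2 e‖}
  have hS : ∀ e, IsCompact (S e) := by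
    intro e
    refine ((isCompact_closedBall _ _).prod ((isCompact_sphere _ _).prod (isCompact_closedBall _ _))).inter_right ?_
    have h1 : Continuous fun y : Vd d × Vd d × Vd d => y.2.1 e := (continuous_apply e).comp (continuous_fst.comp continuous_snd)
    have h2 : Continuous fun y : Vd d × Vd d × Vd d => K' * ‖y.2.2 e‖ :=
      continuous_const.mul ((continuous_apply e).comp (continuous_snd.comp continuous_snd)).norm
    exact IsClosed.inter (isClosed_eq h1 continuous_const) (isClosed_le continuous_const h2)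
  have hfS : ∀ e, ContinuousOn f (S e) := by
    rintro e ⟨p, u, w⟩ hy
    exact (Nn_cont Ω χ (half_mem (mem_closedBall_zero_iff.1 hy.1.1)) u w).continuousWithinAt
  have hpos : ∀ e, ∀ y ∈ S e, 0 < f y := by
    rintro e ⟨p, u, w⟩ ⟨⟨hp, hu, -⟩, hue, hwe⟩
    have hu0 : u ≠ 0 := by
      intro h0
      rw [h0] at hu
      simp at hu
    have hwe0 : w e ≠ 0 := by
      intro h0
      have h1 : (1 : ℝ) ≤ K' * ‖w e‖ := hwe
      rw [h0, norm_zero, mul_zero] at h1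
      linarith
    exact Nn_pos hX Ω hΩ χ (half_mem (mem_closedBall_zero_iff.1 hp)) (indep hu0 hue hwe0)
  have hmin : ∀ e, ∃ c : ℝ, 0 < c ∧ ∀ y ∈ S e, c ≤ f y := by
    intro e
    rcases (S e).eq_empty_or_nonempty with h | h
    · exact ⟨1, one_pos, fun y hy => absurd hy (by rw [h]; exact Set.notMem_empty y)⟩
    · obtain ⟨y₀, hy₀, hmin⟩ := (hS e).exists_isMinOn h (hfS e)
      exact ⟨f y₀, hpos e y₀ hy₀, fun y hy => hmin hy⟩
  choose c₀ hc₀ hc₀' using hmin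
  obtain ⟨c, hc, hcc⟩ : ∃ c : ℝ, 0 < c ∧ ∀ e, c ≤ c₀ e := by
    rcases isEmpty_or_nonempty (Fin d) with h | h
    · exact ⟨1, one_pos, fun e => (h.false e).elim⟩
    · obtain ⟨e₀, he₀⟩ := Finite.exists_min c₀
      exact ⟨c₀ e₀, hc₀ e₀, he₀⟩
  have hcomp : IsCompact (closedBall (0 : Vd d) (1 / 2) ×ˢ (closedBall (0 : Vd d) 2 ×ˢ closedBall (0 : Vd d) K')) :=
    (isCompact_closedBall _ _).prod ((isCompact_closedBall _ _).prod (isCompact_closedBall _ _))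
  have huc : UniformContinuousOn f (closedBall (0 : Vd d) (1 / 2) ×ˢ (closedBall (0 : Vd d) 2 ×ˢ closedBall (0 : Vd d) K')) := by
    refine hcomp.uniformContinuousOn_of_continuous ?_
    rintro ⟨p, u, w⟩ hy
    exact (Nn_cont Ω χ (half_mem (mem_closedBall_zero_iff.1 hy.1)) u w).continuousWithinAt
  have hτ : 0 < (1 - Real.exp (-η)) * c := by
    have : Real.exp (-η) < 1 := by rw [Real.exp_lt_one_iff]; linarith
    exact mul_pos (by linarith) hc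
  obtain ⟨δ', hδ', hδ''⟩ := Metric.uniformContinuousOn_iff.1 huc _ hτ
  refine ⟨min 1 (δ' / 2), c, lt_min one_pos (by linarith), hc, fun e p u g err hp hue hge hg herr => ?_⟩
  have hpb := half_mem hp
  rcases eq_or_ne u 0 with h0 | h0
  · subst h0
    rw [norm_zero, mul_zero] at herr
    have h1 : err = 0 := norm_le_zero_iff.1 herr
    have h2 : Nn Ω χ p (0 : Vd d) g = 0 := by
      have h3 := Nn_smul hX Ω χ hpb (0 : Vd d) g 0
      rw [zero_smul, norm_zero, zero_pow (by omega), zero_mul] at h3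
      exact h3
    rw [h1, add_zero, h2, norm_zero, zero_pow (by omega)]
    simp
  · have hn : 0 < ‖u‖ := norm_pos_iff.2 h0
    have hnC : ((‖u‖ : ℝ) : ℂ) ≠ 0 := by exact_mod_cast hn.ne'
    obtain ⟨u₁, hu₁⟩ : ∃ u₁ : Vd d, u₁ = ((‖u‖ : ℝ) : ℂ)⁻¹ • u := ⟨_, rfl⟩
    obtain ⟨e₁, he₁⟩ : ∃ e₁ : Vd d, e₁ = ((‖u‖ : ℝ) : ℂ)⁻¹ • err := ⟨_, rfl⟩
    have hu : u = ((‖u‖ : ℝ) : ℂ) • u₁ := by rw [hu₁, smul_smul, mul_inv_cancel₀ hnC, one_smul]
    have her : err = ((‖u‖ : ℝ) : ℂ) • e₁ := by rw [he₁, smul_smul, mul_inv_cancel₀ hnC, one_smul]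
    have hnn : ‖(((‖u‖ : ℝ) : ℂ)⁻¹)‖ = ‖u‖⁻¹ := by rw [norm_inv, Complex.norm_real, norm_norm]
    have hu₁n : ‖u₁‖ = 1 := by rw [hu₁, norm_smul, hnn, inv_mul_cancel₀ hn.ne']
    have he₁n : ‖e₁‖ ≤ min 1 (δ' / 2) := by
      rw [he₁, norm_smul, hnn, inv_mul_le_iff₀ hn, mul_comm]
      exact herr
    have hmem : (p, u₁, g) ∈ S e := by
      refine ⟨⟨mem_closedBall_zero_iff.2 hp, mem_sphere_zero_iff_norm.2 hu₁n, mem_closedBall_zero_iff.2 hg⟩, ?_, hge⟩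
      show u₁ e = 0
      rw [hu₁, Pi.smul_apply, hue, smul_zero]
    have h1 : c ≤ f (p, u₁, g) := (hcc e).trans (hc₀' e _ hmem)
    have h2 : dist (f (p, u₁ + e₁, g)) (f (p, u₁, g)) < (1 - Real.exp (-η)) * c := by
      refine hδ'' _ ?_ _ ?_ ?_
      · refine ⟨mem_closedBall_zero_iff.2 hp, mem_closedBall_zero_iff.2 ?_, mem_closedBall_zero_iff.2 hg⟩
        have h3 := norm_add_le u₁ e₁
        have h4 := min_le_left 1 (δ' / 2)
        show ‖u₁ + e₁‖ ≤ 2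
        linarith
      · refine ⟨mem_closedBall_zero_iff.2 hp, mem_closedBall_zero_iff.2 ?_, mem_closedBall_zero_iff.2 hg⟩
        show ‖u₁‖ ≤ 2
        linarith
      · have h3 : dist ((p, u₁ + e₁, g) : Vd d × Vd d × Vd d) (p, u₁, g) = ‖e₁‖ := by
          rw [Prod.dist_eq, Prod.dist_eq]
          simp only [dist_self, dist_eq_norm, add_sub_cancel_left]
          rw [max_eq_left (norm_nonneg _), max_eq_right (norm_nonneg _)]
        rw [h3]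
        have h4 := min_le_right 1 (δ' / 2)
        linarith
    rw [Real.dist_eq] at h2
    obtain ⟨h3, h4⟩ := num h1 hη h2.le
    have h5 : Nn Ω χ p u g = ‖u‖ ^ m * f (p, u₁, g) := by
      conv_lhs => rw [hu]
      rw [Nn_smul hX Ω χ hpb, Complex.norm_real, norm_norm]
    have h6 : Nn Ω χ p (u + err) g = ‖u‖ ^ m * f (p, u₁ + e₁, g) := by
      conv_lhs => rw [hu, her]
      rw [← smul_add, Nn_smul hX Ω χ hpb, Complex.norm_real, norm_norm]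
    have hpow : 0 < ‖u‖ ^ m := pow_pos hn m
    rw [h5, h6]
    refine ⟨?_, ?_, ?_⟩
    · calc Real.exp (-η) * (‖u‖ ^ m * f (p, u₁, g)) = ‖u‖ ^ m * (Real.exp (-η) * f (p, u₁, g)) := by ring
        _ ≤ _ := mul_le_mul_of_nonneg_left h3 hpow.le
    · calc ‖u‖ ^ m * f (p, u₁ + e₁, g) ≤ ‖u‖ ^ m * (Real.exp η * f (p, u₁, g)) := mul_le_mul_of_nonneg_left h4 hpow.le
        _ = _ := by ring
    · rw [mul_comm]
      exact mul_le_mul_of_nonneg_left h1 hpow.le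

end Pool.Agent.AD.BD
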