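import Pool.Agent.AD.BD.NnA

/-!
# AD BD NnB: comparison of the lengths of two pairs of vectors
-/

set_option autoImplicit false

open Topology Filter Metric

namespace Pool.Agent.AD.BD

open Pool.Agent.H36.BP (EN fs wd)
open Pool.Agent.H14.PP (IsCone CurveAt Tan IsOpenPart)
open Pool.Agent.H62.EF (MN pr)
open Pool.Agent.H5.BD (BC evp)

variable {N d : ℕ} {X : Set (EN N)} {m K : ℕ}

private theorem half_mem {p : Vd d} (hp : ‖p‖ ≤ 1 / 2) : p ∈ ball (0 : Vd d) 2 := by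
  rw [mem_ball_zero_iff]
  exact hp.trans_lt (by norm_num)

private theorem num {η a D c : ℝ} (hD : c ≤ D) (hη : 0 < η) (h : |a - D| ≤ (1 - Real.exp (-η)) * c) :
    Real.exp (-η) * D ≤ a ∧ a ≤ Real.exp η * D := by
  have h0 : 0 < 1 - Real.exp (-η) := by
    have : Real.exp (-η) < 1 := by rw [Real.exp_lt_one_iff]; linarith
    linarith
  have hc0 : 0 ≤ c := by
    by_contra hcon
    push Not at hcon
    have := (abs_nonneg (a - D)).trans h
    nlinarith
  have hD0 : 0 ≤ D := hc0.trans hD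
  have h1 : (1 - Real.exp (-η)) * c ≤ (1 - Real.exp (-η)) * D := mul_le_mul_of_nonneg_left hD h0.le
  have h2 := abs_le.1 (h.trans h1)
  have h3 : 2 ≤ Real.exp η + Real.exp (-η) := by
    have h4 : Real.exp η * Real.exp (-η) = 1 := by rw [← Real.exp_add, add_neg_cancel, Real.exp_zero]
    nlinarith [sq_nonneg (Real.exp η - Real.exp (-η)), Real.exp_pos η, Real.exp_pos (-η), sq_nonneg (Real.exp η + Real.exp (-η) - 2),
      sq_nonneg (Real.exp η - 1), sq_nonneg (Real.exp (-η) - 1)]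
  constructor
  · linarith [h2.1]
  · nlinarith [h2.2]

private theorem indep {u g : Vd d} {e : Fin d} (hu : u ≠ 0) (hue : u e = 0) (hge : g e ≠ 0) : LinearIndependent ℂ ![u, g] := by
  rw [LinearIndependent.pair_iff]
  intro a b hab
  have h1 := congrFun hab e
  rw [Pi.add_apply, Pi.smul_apply, Pi.smul_apply, hue, smul_zero, zero_add, smul_eq_mul, Pi.zero_apply] at h1
  have hb : b = 0 := (mul_eq_zero.1 h1).resolve_right hge
  rw [hb, zero_smul, add_zero] at hab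
  exact ⟨(smul_eq_zero.1 hab).resolve_right hu, hb⟩

theorem Nn_cmp2 (hX : IsCone X) (hm : 1 ≤ m) (Ω : Fin K → BForm d X m) (hΩ : NoZero Ω) (χ : Chart d X) {K' : ℝ} {η : ℝ} (hη : 0 < η) :
    ∃ δ c : ℝ, 0 < δ ∧ 0 < c ∧ ∀ (e : Fin d) (p u g err er2 : Vd d), ‖p‖ ≤ 1 / 2 → u e = 0 → 1 ≤ K' * ‖g e‖ → ‖g‖ ≤ K' → ‖err‖ ≤ δ * ‖u‖ → ‖er2‖ ≤ δ →
      Real.exp (-η) * Nn Ω χ p u g ≤ Nn Ω χ p (u + err) (g + er2) ∧ Nn Ω χ p (u + err) (g + er2) ≤ Real.exp η * Nn Ω χ p u g ∧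
        c * ‖u‖ ^ m ≤ Nn Ω χ p u g := by
  let f : Vd d × Vd d × Vd d → ℝ := fun y => Nn Ω χ y.1 y.2.1 y.2.2
  let S : Fin d → Set (Vd d × Vd d × Vd d) := fun e =>
    (closedBall (0 : Vd d) (1 / 2) ×ˢ (sphere (0 : Vd d) 1 ×ˢ closedBall (0 : Vd d) K')) ∩ {y | y.2.1 e = 0 ∧ 1 ≤ K' * ‖y.2.2 e‖}
  have hS : ∀ e, IsCompact (S e) := by
    intro e
    refine ((isCompact_closedBall _ _).prod ((isCompact_sphere _ _).prod (isCompact_closedBall _ _))).inter_right ?_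
    have h1 : Continuous fun y : Vd d × Vd d × Vd d => y.2.1 e := (continuous_apply e).comp (continuous_fst.comp continuous_snd)
    have h2 : Continuous fun y : Vd d × Vd d × Vd d => K' * ‖y.2.2 e‖ :=
      continuous_const.mul ((continuous_apply e).comp (continuous_snd.comp continuous_snd)).norm
    exact IsClosed.inter (isClosed_eq h1 continuous_const) (isClosed_le continuous_const h2)
  have hfS : ∀ e, ContinuousOn f (S e) := by
    rintro e ⟨p, u, w⟩ hy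
    exact (Nn_cont Ω χ (half_mem (mem_closedBall_zero_iff.1 hy.1.1)) u w).continuousWithinAt
  have hpos : ∀ e, ∀ y ∈ S e, 0 < f y := by
    rintro e ⟨p, u, w⟩ ⟨⟨hp, hu, -⟩, hue, hwe⟩
    have hu0 : u ≠ 0 := by
      intro h0
      rw [h0] at hu
      simp at hu
    have hwe0 : w e ≠ 0 := by
      intro h0
      have h1 : (1 : ℝ) ≤ K' * ‖w e‖ := hwe
      rw [h0, norm_zero, mul_zero] at h1
      linarith
    exact Nn_pos hX Ω hΩ χ (half_mem (mem_closedBall_zero_iff.1 hp)) (indep hu0 hue hwe0)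
  have hmin : ∀ e, ∃ c : ℝ, 0 < c ∧ ∀ y ∈ S e, c ≤ f y := by
    intro e
    rcases (S e).eq_empty_or_nonempty with h | h
    · exact ⟨1, one_pos, fun y hy => absurd hy (by rw [h]; exact Set.notMem_empty y)⟩
    · obtain ⟨y₀, hy₀, hmin⟩ := (hS e).exists_isMinOn h (hfS e)
      exact ⟨f y₀, hpos e y₀ hy₀, fun y hy => hmin hy⟩
  choose c₀ hc₀ hc₀' using hmin
  obtain ⟨c, hc, hcc⟩ : ∃ c : ℝ, 0 < c ∧ ∀ e, c ≤ c₀ e := by
    rcases isEmpty_or_nonempty (Fin d) with h | h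
    · exact ⟨1, one_pos, fun e => (h.false e).elim⟩
    · obtain ⟨e₀, he₀⟩ := Finite.exists_min c₀
      exact ⟨c₀ e₀, hc₀ e₀, he₀⟩
  have hcomp : IsCompact (closedBall (0 : Vd d) (1 / 2) ×ˢ (closedBall (0 : Vd d) 2 ×ˢ closedBall (0 : Vd d) (K' + 1))) :=
    (isCompact_closedBall _ _).prod ((isCompact_closedBall _ _).prod (isCompact_closedBall _ _))
  have huc : UniformContinuousOn f (closedBall (0 : Vd d) (1 / 2) ×ˢ (closedBall (0 : Vd d) 2 ×ˢ closedBall (0 : Vd d) (K' + 1))) := by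
    refine hcomp.uniformContinuousOn_of_continuous ?_
    rintro ⟨p, u, w⟩ hy
    exact (Nn_cont Ω χ (half_mem (mem_closedBall_zero_iff.1 hy.1)) u w).continuousWithinAt
  have hτ : 0 < (1 - Real.exp (-η)) * c := by
    have : Real.exp (-η) < 1 := by rw [Real.exp_lt_one_iff]; linarith
    exact mul_pos (by linarith) hc
  obtain ⟨δ', hδ', hδ''⟩ := Metric.uniformContinuousOn_iff.1 huc _ hτ
  refine ⟨min 1 (δ' / 2), c, lt_min one_pos (by linarith), hc, fun e p u g err er2 hp hue hge hg herr her2 => ?_⟩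
  have hpb := half_mem hp
  rcases eq_or_ne u 0 with h0 | h0
  · subst h0
    rw [norm_zero, mul_zero] at herr
    have h1 : err = 0 := norm_le_zero_iff.1 herr
    have h2 : ∀ g, Nn Ω χ p (0 : Vd d) g = 0 := by
      intro g
      have h3 := Nn_smul hX Ω χ hpb (0 : Vd d) g 0
      rw [zero_smul, norm_zero, zero_pow (by omega), zero_mul] at h3
      exact h3
    rw [h1, add_zero, h2, h2, norm_zero, zero_pow (by omega)]
    simp
  · have hn : 0 < ‖u‖ := norm_pos_iff.2 h0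
    have hnC : ((‖u‖ : ℝ) : ℂ) ≠ 0 := by exact_mod_cast hn.ne'
    obtain ⟨u₁, hu₁⟩ : ∃ u₁ : Vd d, u₁ = ((‖u‖ : ℝ) : ℂ)⁻¹ • u := ⟨_, rfl⟩
    obtain ⟨e₁, he₁⟩ : ∃ e₁ : Vd d, e₁ = ((‖u‖ : ℝ) : ℂ)⁻¹ • err := ⟨_, rfl⟩
    have hu : u = ((‖u‖ : ℝ) : ℂ) • u₁ := by rw [hu₁, smul_smul, mul_inv_cancel₀ hnC, one_smul]
    have her : err = ((‖u‖ : ℝ) : ℂ) • e₁ := by rw [he₁, smul_smul, mul_inv_cancel₀ hnC, one_smul]
    have hnn : ‖(((‖u‖ : ℝ) : ℂ)⁻¹)‖ = ‖u‖⁻¹ := by rw [norm_inv, Complex.norm_real, norm_norm]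
    have hu₁n : ‖u₁‖ = 1 := by rw [hu₁, norm_smul, hnn, inv_mul_cancel₀ hn.ne']
    have he₁n : ‖e₁‖ ≤ min 1 (δ' / 2) := by
      rw [he₁, norm_smul, hnn, inv_mul_le_iff₀ hn, mul_comm]
      exact herr
    have hmem : (p, u₁, g) ∈ S e := by
      refine ⟨⟨mem_closedBall_zero_iff.2 hp, mem_sphere_zero_iff_norm.2 hu₁n, mem_closedBall_zero_iff.2 hg⟩, ?_, hge⟩
      show u₁ e = 0
      rw [hu₁, Pi.smul_apply, hue, smul_zero]
    have h1 : c ≤ f (p, u₁, g) := (hcc e).trans (hc₀' e _ hmem)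
    have h2 : dist (f (p, u₁ + e₁, g + er2)) (f (p, u₁, g)) < (1 - Real.exp (-η)) * c := by
      refine hδ'' _ ?_ _ ?_ ?_
      · refine ⟨mem_closedBall_zero_iff.2 hp, mem_closedBall_zero_iff.2 ?_, mem_closedBall_zero_iff.2 ?_⟩
        · have h3 := norm_add_le u₁ e₁
          have h4 := min_le_left 1 (δ' / 2)
          show ‖u₁ + e₁‖ ≤ 2
          linarith
        · have h3 := norm_add_le g er2
          have h4 := min_le_left 1 (δ' / 2)
          show ‖g + er2‖ ≤ K' + 1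
          linarith
      · refine ⟨mem_closedBall_zero_iff.2 hp, mem_closedBall_zero_iff.2 ?_, mem_closedBall_zero_iff.2 ?_⟩
        · show ‖u₁‖ ≤ 2
          linarith
        · show ‖g‖ ≤ K' + 1
          linarith
      · have h3 : dist ((p, u₁ + e₁, g + er2) : Vd d × Vd d × Vd d) (p, u₁, g) = max ‖e₁‖ ‖er2‖ := by
          rw [Prod.dist_eq, Prod.dist_eq]
          simp only [dist_self, dist_eq_norm, add_sub_cancel_left]
          exact max_eq_right ((norm_nonneg _).trans (le_max_left _ _))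
        rw [h3]
        have h4 := min_le_right 1 (δ' / 2)
        exact max_lt (by linarith) (by linarith)
    rw [Real.dist_eq] at h2
    obtain ⟨h3, h4⟩ := num h1 hη h2.le
    have h5 : Nn Ω χ p u g = ‖u‖ ^ m * f (p, u₁, g) := by
      conv_lhs => rw [hu]
      rw [Nn_smul hX Ω χ hpb, Complex.norm_real, norm_norm]
    have h6 : Nn Ω χ p (u + err) (g + er2) = ‖u‖ ^ m * f (p, u₁ + e₁, g + er2) := by
      conv_lhs => rw [hu, her]
      rw [← smul_add, Nn_smul hX Ω χ hpb, Complex.norm_real, norm_norm]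
    have hpow : 0 < ‖u‖ ^ m := pow_pos hn m
    rw [h5, h6]
    refine ⟨?_, ?_, ?_⟩
    · calc Real.exp (-η) * (‖u‖ ^ m * f (p, u₁, g)) = ‖u‖ ^ m * (Real.exp (-η) * f (p, u₁, g)) := by ring
        _ ≤ _ := mul_le_mul_of_nonneg_left h3 hpow.le
    · calc ‖u‖ ^ m * f (p, u₁ + e₁, g + er2) ≤ ‖u‖ ^ m * (Real.exp η * f (p, u₁, g)) := mul_le_mul_of_nonneg_left h4 hpow.le
        _ = _ := by ring
    · rw [mul_comm]
      exact mul_le_mul_of_nonneg_left h1 hpow.le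

end Pool.Agent.AD.BD
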