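import Pool.Agent.AD.BD.Aff
import Pool.Agent.AD.BD.Flow
import Pool.Agent.AD.BD.Atl
import Pool.Agent.AD.BD.Mat
import Pool.Agent.H5.BD.CPer

/-!
# AD BD Per: the curves with bounded distortion are doubly periodic, and there are only finitely many of them
-/

set_option autoImplicit false

open Topology Filter Metric

namespace Pool.Agent.AD.BD

open Pool.Agent.H36.BP (EN fs wd)
open Pool.Agent.H14.PP (IsCone CurveAt Tan)
open Pool.Agent.H62.EF (MN pr)
open Pool.Agent.H5.BD (BC evp bc_trans Equi Equi.symm)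

variable {N d : ℕ} {X : Set (EN N)} {A : Atlas d X} {c L r₀ c₁ K₀ r₂ r₃ ε₃ K : ℝ} {m J : ℕ}

/-- if the sequence `F n` of curves is arbitrary then two of them are the same up to a change of the variable -/
theorem exists_pair (hX : IsCone X) (h : MC A c L r₀ c₁ K₀ r₂ r₃ ε₃ K) (hm : 1 ≤ m) (Ω : Fin J → BForm d X m) (hΩ : NoZero Ω)
    (F : ℕ → ℂ → EN N) (hF : ∀ n, F n ∈ BC X c L) :
    ∃ k l : ℕ, k ≠ l ∧ ∃ a b : ℂ, a ≠ 0 ∧ ‖b‖ ≤ r₂ ∧ ∀ z, evp (F l) z = evp (F k) (a * z + b) := by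
  have hfl := h.flow hX hm Ω hΩ
  obtain ⟨n₁, ε₁, r, hε₁, hr, hmain⟩ := hfl.main
  obtain ⟨G, hG, hlim⟩ := hfl.lim (hyperfilter ℕ) Nat.hyperfilter_le_atTop F (Eventually.of_forall hF)
  have hu := hfl.unif (hyperfilter ℕ) (f := F) (a := fun _ => 0) (Eventually.of_forall hF) hG (fun z => by simpa using hlim z) n₁
    (half_pos hε₁)
  obtain ⟨k, hk⟩ := hu.exists
  obtain ⟨l, hl, hlk⟩ := (hu.and (Nat.hyperfilter_le_atTop (eventually_gt_atTop k))).exists
  have hkl : k ≠ l := (ne_of_lt hlk)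
  have hclose : ∀ z ∈ closedBall (0 : ℂ) n₁, dist (evp (F k) z) (evp (F l) z) ≤ ε₁ := by
    intro z hz
    have h1 := hk z hz
    have h2 := hl z hz
    rw [add_zero] at h1 h2
    calc dist (evp (F k) z) (evp (F l) z) ≤ dist (evp (F k) z) (evp G z) + dist (evp G z) (evp (F l) z) := dist_triangle _ _ _
      _ ≤ ε₁ / 2 + ε₁ / 2 := by
        rw [dist_comm (evp G z)]
        exact add_le_add h1.le h2.le
      _ = ε₁ := by ring
  rcases hmain (F k) (hF k) (F l) (hF l) hclose with h1 | h1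
  · obtain ⟨a, b, ha, hb, hab⟩ := h.rel_affine hr (hF k) (hF l) h1
    exact ⟨k, l, hkl, a, b, ha, hb, hab⟩
  · obtain ⟨a, b, ha, hb, hab⟩ := h.rel_affine hr (hF l) (hF k) h1
    exact ⟨l, k, hkl.symm, a, b, ha, hb, hab⟩

/-- a curve which is the same up to `z ↦ a z + b` has `a = 1` -/
theorem a_eq_one (h : MC A c L r₀ c₁ K₀ r₂ r₃ ε₃ K) {F : ℂ → EN N} (hF : F ∈ BC X c L) {a b : ℂ} (hab : ∀ z, evp F z = evp F (a * z + b)) :
    a = 1 := by
  by_contra hne
  have hK : 0 < K := lt_of_lt_of_le one_pos (h.lc.one_le.trans h.le_K)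
  have hr₂ := h.r₂_pos
  have ha : a - 1 ≠ 0 := sub_ne_zero.2 hne
  have ha' : 0 < ‖a - 1‖ := norm_pos_iff.2 ha
  -- the fixed point is `-b / (a - 1)`
  obtain ⟨t, ht⟩ : ∃ t : ℂ, t = ((r₂ / ‖a - 1‖ : ℝ) : ℂ) := ⟨_, rfl⟩
  obtain ⟨w, hw⟩ : ∃ w : ℂ, w = t - b / (a - 1) := ⟨_, rfl⟩
  have h1 : a * w + b - w = (a - 1) * t := by
    rw [hw]
    field_simp
    ring
  have h2 : ‖a * w + b - w‖ = r₂ := by
    rw [h1, norm_mul, ht, Complex.norm_real, Real.norm_eq_abs, abs_of_pos (by positivity)]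
    field_simp
  have h3 := h.emb F hF (a * w + b) w (by rw [h2]; linarith)
  have h4 : pr (F w) = pr (F (a * w + b)) := hab w
  rw [h2, h4, dist_self] at h3
  have h5 : 0 < K⁻¹ * r₂ := by positivity
  linarith

/-- there is a period near the line `ℝ u` -/
theorem exists_period (hX : IsCone X) (h : MC A c L r₀ c₁ K₀ r₂ r₃ ε₃ K) (hm : 1 ≤ m) (Ω : Fin J → BForm d X m) (hΩ : NoZero Ω)
    {F : ℂ → EN N} (hF : F ∈ BC X c L) (u : ℂ) : ∃ (t : ℝ) (b : ℂ), 4 * r₂ ≤ |t| ∧ ‖b‖ ≤ r₂ ∧ ∀ z, evp F (z + (t * u + b)) = evp F z := by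
  have hr₂ := h.r₂_pos
  obtain ⟨k, l, hkl, a, b, ha, hb, hab⟩ := exists_pair hX h hm Ω hΩ (fun n z => F (z + ((n * (4 * r₂) : ℝ) : ℂ) * u))
    (fun n => bc_trans hF _)
  have h1 : ∀ z, evp F z = evp F (a * z + (b + ((k * (4 * r₂) : ℝ) : ℂ) * u - a * (((l * (4 * r₂) : ℝ) : ℂ) * u))) := by
    intro z
    have h2 : evp F (z - ((l * (4 * r₂) : ℝ) : ℂ) * u + ((l * (4 * r₂) : ℝ) : ℂ) * u) =
        evp F (a * (z - ((l * (4 * r₂) : ℝ) : ℂ) * u) + b + ((k * (4 * r₂) : ℝ) : ℂ) * u) := hab _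
    rw [sub_add_cancel] at h2
    rw [h2]
    congr 1
    ring
  have ha1 := a_eq_one h hF h1
  subst ha1
  refine ⟨((k : ℝ) - l) * (4 * r₂), b, ?_, hb, fun z => ?_⟩
  · rw [abs_mul, abs_of_pos (by positivity : (0 : ℝ) < 4 * r₂)]
    have h2 : (1 : ℝ) ≤ |(k : ℝ) - l| := by
      have h3 : (k : ℤ) - l ≠ 0 := by
        rw [sub_ne_zero]
        exact_mod_cast hkl
      have h4 : (1 : ℤ) ≤ |(k : ℤ) - l| := Int.one_le_abs h3
      exact_mod_cast h4
    have h3 : 0 < 4 * r₂ := by positivity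
    nlinarith
  · rw [h1 z]
    congr 1
    push_cast
    ring

theorem MC.doubly_periodic (hX : IsCone X) (h : MC A c L r₀ c₁ K₀ r₂ r₃ ε₃ K) (hm : 1 ≤ m) (Ω : Fin J → BForm d X m) (hΩ : NoZero Ω)
    {F : ℂ → EN N} (hF : F ∈ BC X c L) : ∃ ω₁ ω₂ : ℂ, LinearIndependent ℝ ![ω₁, ω₂] ∧
      ∀ z, pr (F (z + ω₁)) = pr (F z) ∧ pr (F (z + ω₂)) = pr (F z) := by
  have hr₂ := h.r₂_pos
  obtain ⟨s, b, hs, hb, h1⟩ := exists_period hX h hm Ω hΩ hF 1
  obtain ⟨t, b', ht, hd, h2⟩ := exists_period hX h hm Ω hΩ hF Complex.I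
  refine ⟨_, _, ?_, fun z => ⟨h1 z, h2 z⟩⟩
  have hb1 := (Complex.abs_re_le_norm b).trans hb
  have hb2 := (Complex.abs_im_le_norm b).trans hb
  have hd1 := (Complex.abs_re_le_norm b').trans hd
  have hd2 := (Complex.abs_im_le_norm b').trans hd
  rw [LinearIndependent.pair_iff]
  intro x y hxy
  have hre : x * (s + b.re) + y * b'.re = 0 := by
    have := congrArg Complex.re hxy
    simp at this
    linarith
  have him : x * b.im + y * (t + b'.im) = 0 := by
    have := congrArg Complex.im hxy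
    simp at this
    linarith
  have hdet : (s + b.re) * (t + b'.im) - b.im * b'.re ≠ 0 := by
    intro h0
    have e1 : 3 * r₂ ≤ |s + b.re| := by
      have := abs_sub_abs_le_abs_sub s (-b.re)
      rw [abs_neg, sub_neg_eq_add] at this
      linarith
    have e2 : 3 * r₂ ≤ |t + b'.im| := by
      have := abs_sub_abs_le_abs_sub t (-b'.im)
      rw [abs_neg, sub_neg_eq_add] at this
      linarith
    have e3 : (3 * r₂) * (3 * r₂) ≤ |(s + b.re) * (t + b'.im)| := by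
      rw [abs_mul]
      exact mul_le_mul e1 e2 (by positivity) (abs_nonneg _)
    have e4 : |b.im * b'.re| ≤ r₂ * r₂ := by
      rw [abs_mul]
      exact mul_le_mul hb2 hd1 (abs_nonneg _) hr₂.le
    rw [sub_eq_zero.1 h0] at e3
    nlinarith
  have hx : x * ((s + b.re) * (t + b'.im) - b.im * b'.re) = 0 := by
    linear_combination (t + b'.im) * hre - b'.re * him
  have hy : y * ((s + b.re) * (t + b'.im) - b.im * b'.re) = 0 := by
    linear_combination (s + b.re) * him - b.im * hre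
  exact ⟨(mul_eq_zero.1 hx).resolve_right hdet, (mul_eq_zero.1 hy).resolve_right hdet⟩

theorem MC.finite_classes (hX : IsCone X) (h : MC A c L r₀ c₁ K₀ r₂ r₃ ε₃ K) (hm : 1 ≤ m) (Ω : Fin J → BForm d X m) (hΩ : NoZero Ω) :
    ∃ T : Finset (ℂ → EN N), (∀ G ∈ T, G ∈ BC X c L) ∧ ∀ F ∈ BC X c L, ∃ G ∈ T, Equi F G := by
  classical
  by_contra hcon
  push Not at hcon
  obtain ⟨F, hF, hFF⟩ := exists_seq_of_forall_finset_exists (fun F : ℂ → EN N => F ∈ BC X c L) (fun F G => ¬ Equi G F) fun T hT => by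
    obtain ⟨G, hG, h1⟩ := hcon T hT
    exact ⟨G, hG, h1⟩
  obtain ⟨k, l, hkl, a, b, ha, -, hab⟩ := exists_pair hX h hm Ω hΩ F hF
  have h1 : Equi (F l) (F k) := ⟨a, b, ha, hab⟩
  rcases lt_or_gt_of_ne hkl with h2 | h2
  · exact hFF k l h2 h1
  · exact hFF l k h2 h1.symm

/-- **Curves with bounded distortion.** Let `X` be the cone of a smooth projective manifold of dimension `d` and let `Ω` be sections of `S^(m,m) Ω_X (-1)` (polynomials of degree `m` in
the bivector `v ∧ w`) which have no common zero on the decomposable bivectors.  The entire curves in the manifold whose derivative is between `c > 0` and `L` are doubly periodic,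
and up to `z ↦ a z + b` there are only finitely many of them. -/
theorem curves_of_bounded_distortion (hX : IsCone X) (hch : Charts d X) (hm : 1 ≤ m) (Ω : Fin J → BForm d X m) (hΩ : NoZero Ω) (hc : 0 < c) (hL : 0 < L) :
    (∀ F ∈ BC X c L, ∃ ω₁ ω₂ : ℂ, LinearIndependent ℝ ![ω₁, ω₂] ∧ ∀ z, pr (F (z + ω₁)) = pr (F z) ∧ pr (F (z + ω₂)) = pr (F z)) ∧
      ∃ T : Finset (ℂ → EN N), (∀ G ∈ T, G ∈ BC X c L) ∧ ∀ F ∈ BC X c L, ∃ G ∈ T, Equi F G := by
  rcases Set.eq_empty_or_nonempty X with h0 | hne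
  · have h1 : ∀ F, F ∉ BC X c L := fun F hF => by
      have := hF.2.1 0
      rw [h0] at this
      exact this
    exact ⟨fun F hF => absurd hF (h1 F), ∅, fun G hG => absurd hG (Finset.notMem_empty G), fun F hF => absurd hF (h1 F)⟩
  · obtain ⟨A⟩ := exists_atlas hX hch hne
    obtain ⟨r₀, c₁, K₀, r₂, r₃, ε₃, K, h⟩ := exists_MC hX A hc hL
    exact ⟨fun F hF => h.doubly_periodic hX hm Ω hΩ hF, h.finite_classes hX hm Ω hΩ⟩

end Pool.Agent.AD.BD
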