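import Pool.Agent.AD.BD.Dm
import Pool.Agent.AD.BD.NnA
import Mathlib.Topology.Order.Compact

/-!
# AD BD Rho: the function `rh`

`rh` is the length of the pair `(qc A i F w' - qc A i G z, deriv (qc A i G) z)`, `w'` the parameter of the nearest point of the plaque, `i` the chart of `G z`.
`rh_cmp`: in the chart `k` of `F (φ z₀)` it is, up to `exp η`, the length of the pair `(qc A k F (ψ z) - qc A k G z, deriv (qc A k G) z)`.
-/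

set_option autoImplicit false

open Topology Filter Metric

namespace Pool.Agent.AD.BD

open Pool.Agent.H36.BP (EN fs wd)
open Pool.Agent.H14.PP (IsCone CurveAt Tan)
open Pool.Agent.H62.EF (MN pr)
open Pool.Agent.H5.BD (BC evp FolAt)

variable {N d : ℕ} {X : Set (EN N)} {A : Atlas d X} {c L r₀ c₁ K₀ r₂ r₃ ε₃ K : ℝ} {m J : ℕ}

open Classical in
/-- the parameter of the point of the plaque of `F` at `w` which is nearest to `y` -/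
noncomputable def nearest (r₂ : ℝ) (F : ℂ → EN N) (w : ℂ) (y : MN N) : ℂ :=
  if h : ∃ w' ∈ closedBall w r₂, ∀ w'' ∈ closedBall w r₂, dist y (pr (F w')) ≤ dist y (pr (F w'')) then h.choose else w

theorem MC.nearest_spec (h : MC A c L r₀ c₁ K₀ r₂ r₃ ε₃ K) {F : ℂ → EN N} (hF : F ∈ BC X c L) (w : ℂ) (y : MN N) :
    nearest r₂ F w y ∈ closedBall w r₂ ∧ ∀ w' ∈ closedBall w r₂, dist y (pr (F (nearest r₂ F w y))) ≤ dist y (pr (F w')) := by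
  have hcont : Continuous (fun z => pr (F z)) :=
    (LipschitzWith.of_dist_le_mul (K := (2 * L).toNNReal) fun z w => by
      rw [Real.coe_toNNReal _ (mul_nonneg zero_le_two h.lc.L_pos.le), dist_eq_norm z w]
      exact h.lc.lip F hF z w).continuous
  have hex : ∃ w' ∈ closedBall w r₂, ∀ w'' ∈ closedBall w r₂, dist y (pr (F w')) ≤ dist y (pr (F w'')) := by
    obtain ⟨x, hx, hmin⟩ := (isCompact_closedBall w r₂).exists_isMinOn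
      ⟨w, mem_closedBall_self h.r₂_pos.le⟩ (continuous_const.dist hcont).continuousOn
    exact ⟨x, hx, fun w'' hw'' => hmin hw''⟩
  have hn : nearest r₂ F w y = hex.choose := by
    unfold nearest
    rw [dif_pos hex]
  rw [hn]
  exact hex.choose_spec

/-- the distance of `G z` to the plaque of `F` at `w`, measured by the forms `Ω` and `G' z` -/
noncomputable def rh (A : Atlas d X) (Ω : Fin J → BForm d X m) (r₂ : ℝ) (F : ℂ → EN N) (w : ℂ) (G : ℂ → EN N) (z : ℂ) : ℝ :=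
  Nn Ω (A.χ (A.idx (pr (G z)))) (qc A (A.idx (pr (G z))) G z)
    (qc A (A.idx (pr (G z))) F (nearest r₂ F w (pr (G z))) - qc A (A.idx (pr (G z))) G z) (deriv (qc A (A.idx (pr (G z))) G) z)

theorem good_self (A : Atlas d X) {x : EN N} (hx : x ∈ X) : Good (A.χ (A.idx (pr x))) x :=
  A.good x hx x hx (by rw [dist_self]; exact A.δ_pos.le)

theorem rh_bdd (h : MC A c L r₀ c₁ K₀ r₂ r₃ ε₃ K) (Ω : Fin J → BForm d X m) : ∃ B ε : ℝ, 0 ≤ B ∧ 0 < ε ∧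
    ∀ F ∈ BC X c L, ∀ G ∈ BC X c L, ∀ w z, dist (evp G z) (evp F w) ≤ ε → 0 ≤ rh A Ω r₂ F w G z ∧ rh A Ω r₂ F w G z ≤ B := by
  have hK₀ : 1 ≤ K₀ := h.lc.one_le
  choose B hB0 hB using fun i => Nn_bdd Ω (A.χ i) K₀
  refine ⟨∑ i, B i, A.δ, Finset.sum_nonneg fun i _ => hB0 i, A.δ_pos, fun F hF G hG w z hd => ?_⟩
  have hGX : G z ∈ X := hG.2.1 z
  obtain ⟨-, hmin⟩ := h.nearest_spec hF w (pr (G z))
  have hd' : dist (pr (G z)) (pr (F (nearest r₂ F w (pr (G z))))) ≤ A.δ :=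
    (hmin w (mem_closedBall_self h.r₂_pos.le)).trans hd
  have hg := good_self A hGX
  have hg' : Good (A.χ (A.idx (pr (G z)))) (F (nearest r₂ F w (pr (G z)))) := A.good _ hGX _ (hF.2.1 _) hd'
  constructor
  · exact Nn_nonneg _ _ _ _ _
  · unfold rh
    refine (hB (A.idx (pr (G z))) _ _ _ hg.2.2 ?_ (h.lc.der_le G hG _ z hg)).trans
      (Finset.single_le_sum (f := fun i => B i) (fun i _ => hB0 i) (Finset.mem_univ _))
    refine (norm_sub_le _ _).trans ?_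
    have h2 := hg.2.2
    have h3 := hg'.2.2
    unfold qc
    linarith

/-- second order Taylor estimate -/
private theorem taylor {p : ℂ → Vd d} {w₀ : ℂ} {ρ M : ℝ} (hp : ∀ u ∈ ball w₀ ρ, DifferentiableAt ℂ p u)
    (hM : ∀ u ∈ ball w₀ ρ, ∀ u' ∈ ball w₀ ρ, ‖deriv p u - deriv p u'‖ ≤ M * ‖u - u'‖) (hM0 : 0 ≤ M) {w w' : ℂ} (hw : w ∈ ball w₀ ρ)
    (hw' : w' ∈ ball w₀ ρ) : ‖p w - p w' - (w - w') • deriv p w'‖ ≤ M * ‖w - w'‖ ^ 2 := by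
  have hconv : Convex ℝ (ball w₀ ρ ∩ closedBall w' ‖w - w'‖) := (convex_ball _ _).inter (convex_closedBall _ _)
  have h1 := hconv.norm_image_sub_le_of_norm_hasDerivWithin_le (𝕜 := ℂ) (f := fun u => p u - u • deriv p w')
    (f' := fun u => deriv p u - (1 : ℂ) • deriv p w') (C := M * ‖w - w'‖) (x := w') (y := w) ?_ ?_ ?_ ?_
  · have h2 : p w - w • deriv p w' - (p w' - w' • deriv p w') = p w - p w' - (w - w') • deriv p w' := by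
      rw [sub_smul]; abel
    rw [h2] at h1
    calc ‖p w - p w' - (w - w') • deriv p w'‖ ≤ M * ‖w - w'‖ * ‖w - w'‖ := h1
      _ = M * ‖w - w'‖ ^ 2 := by ring
  · intro u hu
    exact (((hp u hu.1).hasDerivAt).sub ((hasDerivAt_id u).smul_const (deriv p w'))).hasDerivWithinAt
  · intro u hu
    rw [one_smul]
    refine (hM u hu.1 w' hw').trans (mul_le_mul_of_nonneg_left ?_ hM0)
    have h3 := hu.2
    rwa [mem_closedBall, dist_eq_norm] at h3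
  · exact ⟨hw', mem_closedBall_self (norm_nonneg _)⟩
  · refine ⟨hw, ?_⟩
    rw [mem_closedBall, dist_eq_norm]

/-- the chain rule for the change of charts -/
private theorem chain (hX : IsCone X) {G : ℂ → EN N} (hG : Differentiable ℂ G) (hGX : ∀ z, G z ∈ X) {χ χ' : Chart d X} {z : ℂ}
    (h : Good χ (G z)) (h' : Good χ' (G z)) :
    deriv (fun z => χ'.q (G z)) z = fderiv ℂ (fun p => χ'.q (χ.σ p)) (χ.q (G z)) (deriv (fun z => χ.q (G z)) z) := by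
  have hcurve : Pool.Agent.H14.PP.CurveAt X G z := ⟨hG.analyticAt z, Eventually.of_forall hGX⟩
  obtain ⟨han, -, a, -, -, hev⟩ := χ.curve hX hcurve h.2.1
  have hb : χ.q (G z) ∈ ball (0 : Vd d) 2 := (χ.surj _ h.1 h.2.1).1
  obtain ⟨a₀, ha₀, hGz⟩ := (χ.surj _ h.1 h.2.1).2
  have hσU : χ.σ (χ.q (G z)) ∈ χ'.U := by
    have h1 := χ'.smul_U _ h'.2.1 a₀⁻¹ (inv_ne_zero ha₀)
    rw [hGz] at h1
    rw [smul_smul, inv_mul_cancel₀ ha₀, one_smul] at h1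
    convert h1 using 3
  have hd : DifferentiableAt ℂ (fun p => χ'.q (χ.σ p)) (χ.q (G z)) := by
    have h1 : AnalyticAt ℂ (fun p => χ'.q (χ.σ p)) (χ.q (G z)) :=
      AnalyticAt.comp (g := χ'.q) (f := χ.σ) (χ'.q_an _ hσU) (χ.σ_an _ hb)
    exact h1.differentiableAt
  have heq : (fun z => χ'.q (G z)) =ᶠ[𝓝 z] fun z => (fun p => χ'.q (χ.σ p)) (χ.q (G z)) := by
    have hU' : ∀ᶠ u in 𝓝 z, G u ∈ χ'.U := (hG.continuous.continuousAt).eventually_mem (χ'.isOpen_U.mem_nhds h'.2.1)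
    filter_upwards [hev, hU'] with u hu huU
    have ha : a u ≠ 0 := by
      intro h0
      have h1 := hGX u
      rw [hu.2, h0, zero_smul] at h1
      exact hX.zero_notMem h1
    have h1 : χ.σ (χ.q (G u)) ∈ χ'.U := by
      have h2 := χ'.smul_U _ huU (a u)⁻¹ (inv_ne_zero ha)
      have h3 : (a u)⁻¹ • G u = χ.σ (χ.q (G u)) := by
        conv_lhs => rw [hu.2]
        rw [smul_smul, inv_mul_cancel₀ ha, one_smul]
      rwa [h3] at h2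
    show χ'.q (G u) = χ'.q (χ.σ (χ.q (G u)))
    conv_lhs => rw [hu.2]
    exact χ'.q_smul _ h1 _ ha
  rw [heq.deriv_eq]
  exact (hd.hasFDerivAt.comp_hasDerivAt z han.differentiableAt.hasDerivAt).deriv

/-- the estimate for one configuration -/
private theorem main (hX : IsCone X) (h : MC A c L r₀ c₁ K₀ r₂ r₃ ε₃ K) (Ω : Fin J → BForm d X m) {K₂ s ε : ℝ} (hK₂ : 1 ≤ K₂) (hs : 0 < s)
    (hs₃ : s ≤ r₃) (hε : 0 < ε) (hε1 : K₂ * (ε / s) ≤ 1) (hε2 : K * (A.C * ε) ≤ r₂) (hε3 : A.C * (K₂ * ε) ≤ A.δ) {F G : ℂ → EN N}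
    (hF : F ∈ BC X c L) (hG : G ∈ BC X c L) {z₀ : ℂ} {φ : ℂ → ℂ} (hfol : FolAt evp r₂ s ε F G z₀ φ) {e : Fin d} {ψ : ℂ → ℂ} {k : Fin A.n}
    (hk : k = A.idx (pr (F (φ z₀)))) (hm : Match A r₂ r₃ K F G k (φ z₀) z₀ e ψ) (hD : DBound A F G k z₀ e ψ s ε K₂) {z : ℂ}
    (hz : z ∈ closedBall z₀ (s / 2)) {w : ℂ} (hw : w ∈ closedBall (φ z) r₂)
    (hmin : ∀ w' ∈ closedBall (φ z) r₂, dist (pr (G z)) (pr (F w)) ≤ dist (pr (G z)) (pr (F w'))) {i : Fin A.n} (hi : i = A.idx (pr (G z))) :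
    ∃ err : Vd d, ‖err‖ ≤ (K * A.C ^ 2 * K₂ ^ 2 * (ε / s) + (K₀ * K ^ 2 * A.C ^ 4 * K₂ + A.C ^ 6 * K₂) * ε) *
        ‖qc A k F (ψ z) - qc A k G z‖ ∧
      Nn Ω (A.χ i) (qc A i G z) (qc A i F w - qc A i G z) (deriv (qc A i G) z) =
        Nn Ω (A.χ k) (qc A k G z) (qc A k F (ψ z) - qc A k G z + err) (deriv (qc A k G) z) := by
  have hC : 1 ≤ A.C := A.one_le
  have hK₀ : 1 ≤ K₀ := h.lc.one_le
  have hK : 1 ≤ K := hK₀.trans h.le_K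
  have hr₂ := h.r₂_pos
  have hr₃ := h.r₃_pos
  have hzn : ‖z - z₀‖ ≤ s / 2 := by rwa [mem_closedBall, dist_eq_norm] at hz
  have hzs : z ∈ closedBall z₀ s := by rw [mem_closedBall, dist_eq_norm]; linarith
  have hzb : z ∈ ball z₀ (2 * r₃) := by rw [mem_ball, dist_eq_norm]; linarith
  obtain ⟨hd1, hd2⟩ := hfol z hzs
  have hd1' : dist (pr (G z)) (pr (F (φ z))) ≤ ε := hd1
  have hφz : φ z ∈ closedBall (φ z₀) (2 * r₂) := by rw [mem_closedBall, dist_eq_norm]; linarith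
  have hwn : ‖w - φ z‖ ≤ r₂ := by rwa [mem_closedBall, dist_eq_norm] at hw
  have hwn' : ‖w - φ z₀‖ ≤ r₂ + r₂ / 4 := by
    calc ‖w - φ z₀‖ = ‖(w - φ z) + (φ z - φ z₀)‖ := by rw [sub_add_sub_cancel]
      _ ≤ ‖w - φ z‖ + ‖φ z - φ z₀‖ := norm_add_le _ _
      _ ≤ r₂ + r₂ / 4 := add_le_add hwn hd2
  have hw2 : w ∈ closedBall (φ z₀) (2 * r₂) := by rw [mem_closedBall, dist_eq_norm]; linarith
  have hψm : ‖ψ z - φ z₀‖ ≤ r₂ := by
    have h1 := hm.mem z hzb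
    rwa [mem_closedBall, dist_eq_norm] at h1
  have hψ2 : ψ z ∈ closedBall (φ z₀) (2 * r₂) := by rw [mem_closedBall, dist_eq_norm]; linarith
  have gx : Good (A.χ k) (G z) := hm.goodG z hzb
  have gy : Good (A.χ k) (F w) := hm.goodF w hw2
  have gy' : Good (A.χ k) (F (ψ z)) := hm.goodF (ψ z) hψ2
  have gφ : Good (A.χ k) (F (φ z)) := hm.goodF (φ z) hφz
  obtain ⟨t, ht⟩ : ∃ t : ℝ, t = ‖qc A k F (ψ z) - qc A k G z‖ := ⟨_, rfl⟩
  have ht0 : 0 ≤ t := by rw [ht]; exact norm_nonneg _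
  have ht1 : t ≤ K₂ * ε := by rw [ht]; exact hD.le z hzs
  obtain ⟨hlow, -⟩ := hD.low hε1 z hz
  -- (a)
  have hψφ : ψ z ∈ closedBall (φ z) r₂ := by
    rw [mem_closedBall, dist_eq_norm, norm_sub_rev]
    have h1 := hm.near z hzb (φ z) hφz
    have h2 : ‖qc A k F (φ z) - qc A k G z‖ ≤ A.C * ε := by
      have h3 := A.le_dist k _ _ gφ gx
      rw [dist_comm] at h3
      exact h3.trans (mul_le_mul_of_nonneg_left hd1' (by linarith))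
    exact h1.trans ((mul_le_mul_of_nonneg_left h2 (by linarith)).trans hε2)
  have hxy : dist (pr (G z)) (pr (F w)) ≤ A.C * t := by
    refine (hmin (ψ z) hψφ).trans ?_
    have h1 := A.dist_le k _ _ gx gy'
    rw [norm_sub_rev] at h1
    rw [ht]
    exact h1
  have hν : ‖qc A k F w - qc A k G z‖ ≤ A.C ^ 2 * t := by
    have h1 := A.le_dist k _ _ gy gx
    rw [dist_comm] at h1
    have h2 := h1.trans (mul_le_mul_of_nonneg_left hxy (by linarith))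
    calc ‖qc A k F w - qc A k G z‖ ≤ A.C * (A.C * t) := h2
      _ = A.C ^ 2 * t := by ring
  have hwψ : ‖w - ψ z‖ ≤ K * (A.C ^ 2 * t) :=
    (hm.near z hzb w hw2).trans (mul_le_mul_of_nonneg_left hν (by linarith))
  -- (b)
  have hgoodF : ∀ u ∈ ball (φ z₀) r₀, Good (A.χ k) (F u) := by
    rw [hk]
    exact h.lc.good F hF _ (hF.2.1 _) (φ z₀) (by rw [dist_self]; have := A.δ_pos; linarith)
  have hr₀ := h.lc.r₀_pos
  have hr₂₀ := h.r₂_le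
  obtain ⟨a, ha⟩ : ∃ a : Vd d, a = deriv (qc A k F) (ψ z) := ⟨_, rfl⟩
  have htay : ‖qc A k F w - qc A k F (ψ z) - (w - ψ z) • a‖ ≤ K₀ * ‖w - ψ z‖ ^ 2 := by
    rw [ha]
    refine taylor (w₀ := φ z₀) (ρ := r₀ / 2) ?_ ?_ (by linarith) ?_ ?_
    · intro u hu
      exact (h.lc.an F hF k u (hgoodF u (ball_subset_ball (by linarith) hu))).differentiableAt
    · exact h.lc.der_lip F hF k (φ z₀) hgoodF
    · rw [mem_ball, dist_eq_norm]; linarith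
    · rw [mem_ball, dist_eq_norm]; linarith
  obtain ⟨g', hg'⟩ : ∃ g' : Vd d, g' = deriv (qc A k G) z := ⟨_, rfl⟩
  obtain ⟨ψ', hψ'⟩ : ∃ ψ' : ℂ, ψ' = deriv ψ z := ⟨_, rfl⟩
  rw [← hψ'] at hlow
  have hψ0 : ψ' ≠ 0 := by
    intro h0
    rw [h0, norm_zero, mul_zero] at hlow
    linarith
  have hψn : ‖ψ'⁻¹‖ ≤ K₂ := by
    rw [norm_inv, inv_le_iff_one_le_mul₀ (norm_pos_iff.2 hψ0)]
    exact hlow
  obtain ⟨d', hd'⟩ : ∃ d' : Vd d, d' = ψ' • a - g' := ⟨_, rfl⟩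
  have hd'n : ‖d'‖ ≤ K₂ * (ε / s) := by
    rw [hd', ha, hg', hψ']
    exact hD.ang z hz
  have haeq : a = ψ'⁻¹ • g' + ψ'⁻¹ • d' := by
    rw [hd', ← smul_add, add_sub_cancel, smul_smul, inv_mul_cancel₀ hψ0, one_smul]
  obtain ⟨E₁, hE₁⟩ : ∃ E₁ : Vd d, E₁ = qc A k F w - qc A k F (ψ z) - (w - ψ z) • a := ⟨_, rfl⟩
  obtain ⟨ν, hνd⟩ : ∃ ν : Vd d, ν = qc A k F w - qc A k G z := ⟨_, rfl⟩
  have hν' : ‖ν‖ ≤ A.C ^ 2 * t := by rw [hνd]; exact hν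
  have ht2 : t ^ 2 ≤ K₂ * ε * t := by nlinarith
  have hE₁n : ‖E₁‖ ≤ K₀ * K ^ 2 * A.C ^ 4 * K₂ * ε * t := by
    have hwψ2 : ‖w - ψ z‖ ^ 2 ≤ (K * (A.C ^ 2 * t)) ^ 2 := pow_le_pow_left₀ (norm_nonneg _) hwψ 2
    calc ‖E₁‖ ≤ K₀ * ‖w - ψ z‖ ^ 2 := by rw [hE₁]; exact htay
      _ ≤ K₀ * (K * (A.C ^ 2 * t)) ^ 2 := mul_le_mul_of_nonneg_left hwψ2 (by linarith)
      _ = K₀ * K ^ 2 * A.C ^ 4 * t ^ 2 := by ring
      _ ≤ K₀ * K ^ 2 * A.C ^ 4 * (K₂ * ε * t) := mul_le_mul_of_nonneg_left ht2 (by positivity)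
      _ = K₀ * K ^ 2 * A.C ^ 4 * K₂ * ε * t := by ring
  have hDn : ‖((w - ψ z) * ψ'⁻¹) • d'‖ ≤ K * A.C ^ 2 * K₂ ^ 2 * (ε / s) * t := by
    rw [norm_smul, norm_mul]
    calc ‖w - ψ z‖ * ‖ψ'⁻¹‖ * ‖d'‖ ≤ (K * (A.C ^ 2 * t)) * K₂ * (K₂ * (ε / s)) := by
          refine mul_le_mul (mul_le_mul hwψ hψn (norm_nonneg _) (by positivity)) hd'n (norm_nonneg _) (by positivity)
      _ = _ := by ring
  -- (c)
  have gxi : Good (A.χ i) (G z) := by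
    rw [hi]
    exact A.good _ (hG.2.1 z) _ (hG.2.1 z) (by rw [dist_self]; exact A.δ_pos.le)
  have gyi : Good (A.χ i) (F w) := by
    rw [hi]
    refine A.good _ (hG.2.1 z) _ (hF.2.1 w) (hxy.trans ((mul_le_mul_of_nonneg_left ht1 (by linarith)).trans hε3))
  obtain ⟨T, hT⟩ : ∃ T : Vd d →L[ℂ] Vd d, T = fderiv ℂ (fun p => (A.χ i).q ((A.χ k).σ p)) ((A.χ k).q (G z)) := ⟨_, rfl⟩
  obtain ⟨S, hS⟩ : ∃ S : Vd d →L[ℂ] Vd d, S = fderiv ℂ (fun p => (A.χ k).q ((A.χ i).σ p)) ((A.χ i).q (G z)) := ⟨_, rfl⟩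
  have hSn : ‖S‖ ≤ A.C := by rw [hS]; exact A.fd_le i k _ gxi gx
  have hTS : ∀ u, T (S u) = u := by
    intro u
    rw [hT, hS]
    exact A.fd_inv k i (G z) u gx gxi
  obtain ⟨E₂, hE₂⟩ : ∃ E₂ : Vd d, E₂ = qc A i F w - qc A i G z - T ν := ⟨_, rfl⟩
  have hE₂n : ‖E₂‖ ≤ A.C ^ 5 * K₂ * ε * t := by
    have h1 := A.trans k i _ _ gx gxi gy gyi
    have h2 : ‖E₂‖ ≤ A.C * ‖ν‖ ^ 2 := by
      rw [hE₂, hνd, hT]
      exact h1
    have h3 : ‖ν‖ ^ 2 ≤ (A.C ^ 2 * t) ^ 2 := pow_le_pow_left₀ (norm_nonneg _) hν' 2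
    calc ‖E₂‖ ≤ A.C * ‖ν‖ ^ 2 := h2
      _ ≤ A.C * (A.C ^ 2 * t) ^ 2 := mul_le_mul_of_nonneg_left h3 (by linarith)
      _ = A.C ^ 5 * t ^ 2 := by ring
      _ ≤ A.C ^ 5 * (K₂ * ε * t) := mul_le_mul_of_nonneg_left ht2 (by positivity)
      _ = A.C ^ 5 * K₂ * ε * t := by ring
  have hSE : ‖S E₂‖ ≤ A.C ^ 6 * K₂ * ε * t := by
    calc ‖S E₂‖ ≤ ‖S‖ * ‖E₂‖ := S.le_opNorm _
      _ ≤ A.C * (A.C ^ 5 * K₂ * ε * t) := mul_le_mul hSn hE₂n (norm_nonneg _) (by positivity)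
      _ = _ := by ring
  have hchain : deriv (qc A i G) z = T g' := by
    rw [hT, hg']
    exact chain hX hG.1 hG.2.1 gx gxi
  -- (d)
  refine ⟨((w - ψ z) * ψ'⁻¹) • d' + E₁ + S E₂, ?_, ?_⟩
  · rw [← ht]
    calc ‖((w - ψ z) * ψ'⁻¹) • d' + E₁ + S E₂‖ ≤ ‖((w - ψ z) * ψ'⁻¹) • d'‖ + ‖E₁‖ + ‖S E₂‖ := norm_add₃_le
      _ ≤ K * A.C ^ 2 * K₂ ^ 2 * (ε / s) * t + K₀ * K ^ 2 * A.C ^ 4 * K₂ * ε * t + A.C ^ 6 * K₂ * ε * t :=
          add_le_add (add_le_add hDn hE₁n) hSE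
      _ = _ := by ring
  · have hu : qc A i F w - qc A i G z = T (ν + S E₂) := by
      rw [map_add, hTS, hE₂]
      abel
    have hsum : ν + S E₂ = (qc A k F (ψ z) - qc A k G z + (((w - ψ z) * ψ'⁻¹) • d' + E₁ + S E₂)) + ((w - ψ z) * ψ'⁻¹) • g' := by
      have h1 : (w - ψ z) • a = ((w - ψ z) * ψ'⁻¹) • g' + ((w - ψ z) * ψ'⁻¹) • d' := by
        conv_lhs => rw [haeq]
        rw [smul_add, smul_smul, smul_smul]
      rw [hνd, hE₁, h1]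
      abel
    rw [hu, hchain]
    have h1 : Nn Ω (A.χ i) (qc A i G z) (T (ν + S E₂)) (T g') = Nn Ω (A.χ k) (qc A k G z) (ν + S E₂) g' := by
      rw [hT]
      exact Nn_good hX Ω (A.χ k) (A.χ i) gx gxi _ _
    have hb : qc A k G z ∈ ball (0 : Vd d) 2 := (A.χ k).surj _ gx.1 gx.2.1 |>.1
    rw [h1, hsum, Nn_add_smul hX Ω (A.χ k) hb, hg']

theorem rh_cmp (hX : IsCone X) (h : MC A c L r₀ c₁ K₀ r₂ r₃ ε₃ K) (hm : 1 ≤ m) (Ω : Fin J → BForm d X m) (hΩ : NoZero Ω) {s η : ℝ} (hs : 0 < s)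
    (hs₃ : s ≤ r₃) (hη : 0 < η) : ∃ ε c₂ : ℝ, 0 < ε ∧ ε ≤ ε₃ ∧ 0 < c₂ ∧ ∀ F ∈ BC X c L, ∀ G ∈ BC X c L, ∀ z₀ φ, FolAt evp r₂ s ε F G z₀ φ →
      ∀ e ψ, Match A r₂ r₃ K F G (A.idx (pr (F (φ z₀)))) (φ z₀) z₀ e ψ → ∀ z ∈ closedBall z₀ (s / 2), ∀ k, k = A.idx (pr (F (φ z₀))) →
        Real.exp (-η) * Nn Ω (A.χ k) (qc A k G z) (qc A k F (ψ z) - qc A k G z) (deriv (qc A k G) z) ≤ rh A Ω r₂ F (φ z) G z ∧
          rh A Ω r₂ F (φ z) G z ≤ Real.exp η * Nn Ω (A.χ k) (qc A k G z) (qc A k F (ψ z) - qc A k G z) (deriv (qc A k G) z) ∧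
          c₂ * ‖qc A k F (ψ z) - qc A k G z‖ ^ m ≤ Nn Ω (A.χ k) (qc A k G z) (qc A k F (ψ z) - qc A k G z) (deriv (qc A k G) z) := by
  obtain ⟨K₂, hK₂, hbd⟩ := h.exists_dBound
  have hC : 1 ≤ A.C := A.one_le
  have hK₀ : 1 ≤ K₀ := h.lc.one_le
  have hK : 1 ≤ K := hK₀.trans h.le_K
  choose δ₀ c₀ hδ₀ hc₀ hcmp using fun i : Fin A.n => Nn_cmp hX hm Ω hΩ (A.χ i) (K' := K₂ + K₀) hη
  have hmin : ∀ f : Fin A.n → ℝ, (∀ i, 0 < f i) → ∃ t : ℝ, 0 < t ∧ ∀ i, t ≤ f i := by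
    intro f hf
    rcases isEmpty_or_nonempty (Fin A.n) with h0 | h0
    · exact ⟨1, one_pos, fun i => (h0.false i).elim⟩
    · obtain ⟨i₀, hi₀⟩ := Finite.exists_min f
      exact ⟨f i₀, hf i₀, hi₀⟩
  obtain ⟨δ, hδ, hδi⟩ := hmin δ₀ hδ₀
  obtain ⟨c₂, hc₂, hci⟩ := hmin c₀ hc₀
  obtain ⟨M₁, hM₁⟩ : ∃ M₁ : ℝ, M₁ = K * A.C ^ 2 * K₂ ^ 2 := ⟨_, rfl⟩
  obtain ⟨M₂, hM₂⟩ : ∃ M₂ : ℝ, M₂ = K₀ * K ^ 2 * A.C ^ 4 * K₂ + A.C ^ 6 * K₂ := ⟨_, rfl⟩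
  have hM₁0 : 0 < M₁ := by rw [hM₁]; positivity
  have hM₂0 : 0 < M₂ := by rw [hM₂]; positivity
  have hM : 0 < M₁ / s + M₂ := by positivity
  have hr₂ := h.r₂_pos
  have hAδ := A.δ_pos
  obtain ⟨ε, hε⟩ : ∃ ε : ℝ, ε = min (min ε₃ (s / K₂)) (min (min (r₂ / (K * A.C)) (A.δ / (A.C * K₂))) (δ / (M₁ / s + M₂))) :=
    ⟨_, rfl⟩
  have e0 : 0 < ε := by
    rw [hε]
    refine lt_min (lt_min h.ε₃_pos (by positivity)) (lt_min (lt_min (by positivity) (by positivity)) (div_pos hδ hM))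
  have e1 : ε ≤ ε₃ := by rw [hε]; exact (min_le_left _ _).trans (min_le_left _ _)
  have e2 : ε ≤ s / K₂ := by rw [hε]; exact (min_le_left _ _).trans (min_le_right _ _)
  have e3 : ε ≤ r₂ / (K * A.C) := by rw [hε]; exact (min_le_right _ _).trans ((min_le_left _ _).trans (min_le_left _ _))
  have e4 : ε ≤ A.δ / (A.C * K₂) := by rw [hε]; exact (min_le_right _ _).trans ((min_le_left _ _).trans (min_le_right _ _))
  have e5 : ε ≤ δ / (M₁ / s + M₂) := by rw [hε]; exact (min_le_right _ _).trans (min_le_right _ _)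
  have e2' : K₂ * (ε / s) ≤ 1 := by
    rw [le_div_iff₀ (by linarith)] at e2
    rw [← mul_div_assoc, div_le_one hs]
    linarith
  have e3' : K * (A.C * ε) ≤ r₂ := by
    rw [le_div_iff₀ (by positivity)] at e3
    linarith
  have e4' : A.C * (K₂ * ε) ≤ A.δ := by
    rw [le_div_iff₀ (by positivity)] at e4
    linarith
  have e5' : M₁ * (ε / s) + M₂ * ε ≤ δ := by
    rw [le_div_iff₀ hM] at e5
    have : M₁ * (ε / s) + M₂ * ε = ε * (M₁ / s + M₂) := by ring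
    linarith
  refine ⟨ε, c₂, e0, e1, hc₂, ?_⟩
  intro F hF G hG z₀ φ hfol e ψ hm z hz k hk
  rw [← hk] at hm
  have hbd' : DBound A F G k z₀ e ψ s ε K₂ := by
    refine hbd F hF G hG k (φ z₀) z₀ e ψ hm s ε hs hs₃ e0.le ?_
    intro z' hz'
    obtain ⟨h1, h2⟩ := hfol z' hz'
    refine ⟨φ z', ?_, h1⟩
    rw [mem_closedBall, dist_eq_norm]
    linarith
  obtain ⟨hn, hmin'⟩ := h.nearest_spec hF (φ z) (pr (G z))
  obtain ⟨err, herr, hrh⟩ := main hX h Ω hK₂ hs hs₃ e0 e2' e3' e4' hF hG hfol hk hm hbd' hz hn hmin' rfl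
  rw [← hM₁, ← hM₂] at herr
  have herr' : ‖err‖ ≤ δ₀ k * ‖qc A k F (ψ z) - qc A k G z‖ :=
    herr.trans (mul_le_mul_of_nonneg_right (e5'.trans (hδi k)) (norm_nonneg _))
  have hzb : z ∈ ball z₀ (2 * r₃) := by
    rw [mem_closedBall] at hz
    rw [mem_ball]
    have := h.r₃_pos
    linarith
  have gx : Good (A.χ k) (G z) := hm.goodG z hzb
  obtain ⟨-, hlow⟩ := hbd'.low e2' z hz
  have hue : (qc A k F (ψ z) - qc A k G z) e = 0 := by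
    rw [Pi.sub_apply, hm.eq z hzb, sub_self]
  have hge : 1 ≤ (K₂ + K₀) * ‖deriv (qc A k G) z e‖ := by
    refine hlow.trans (mul_le_mul_of_nonneg_right (by linarith) (norm_nonneg _))
  have hgn : ‖deriv (qc A k G) z‖ ≤ K₂ + K₀ := (h.lc.der_le G hG k z gx).trans (by linarith)
  obtain ⟨h1, h2, h3⟩ := hcmp k e (qc A k G z) _ (deriv (qc A k G) z) err gx.2.2 hue hge hgn herr'
  have hrh' : rh A Ω r₂ F (φ z) G z = Nn Ω (A.χ k) (qc A k G z) (qc A k F (ψ z) - qc A k G z + err) (deriv (qc A k G) z) := hrh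
  rw [hrh']
  exact ⟨h1, h2, (mul_le_mul_of_nonneg_right (hci k) (by positivity)).trans h3⟩

end Pool.Agent.AD.BD
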